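import Mathlib

/-!
# The counting lemma

Part of `MP_644d19_co` (multiplicity-free theorem). Pure linear algebra.

`F` is a finite nonempty set, `v i` (`i ∈ F`) linearly independent vectors of `E`, `ℓ` a linear form with
`ℓ (v i) > 0` that vanishes on the subspaces `Z none`, `Z (some i)`. If `i`, `j` are linked (`L i j`), a
nonzero combination of `v i` and `v j` lies in `Z i ⊔ Z j`. Every `Z J` contains, for every `k`, a
combination of the `v i` with nonzero coefficient at `k`. For every `C` closed under `L` the sums
`⨆ i ∈ C, Z i` and `Z none ⊔ ⨆ i ∉ C, Z i` are disjoint. Then `False`.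

Proof. Let `~` be the equivalence relation generated by `L` (`Relation.EqvGen L`). Its classes `C` are
closed under `L`; write `Z_C = ⨆ i ∈ C, Z i`.
(1) `i ~ j` implies `(1/ℓ(v i)) • v i - (1/ℓ(v j)) • v j ∈ Z_C` for the class `C` of `i`: by induction
(`Relation.EqvGen`); for `L i j`, `i ≠ j`: `α • v i + β • v j ∈ Z i ⊔ Z j` has `ℓ = 0`, so `α ℓ(v i) = -β ℓ(v j)`, both are
nonzero, divide by `α ℓ(v i)`. (Or: the set of pairs `(i, j)` with `i ~ j` and this property is an
equivalence relation that contains `L`.)
(2) If there is only one class: let `∑ i, r i • v i ∈ Z none` with `r k ≠ 0` for some `k`. Its `ℓ` is `0`, so it is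
`∑ i, (r i * ℓ (v i)) • ((1/ℓ(v i)) • v i - (1/ℓ(v k)) • v k) ∈ Z_C`, `C = univ`. By disjointness it is `0`, so
`r = 0` by independence: contradiction.
(3) Otherwise let `rep i` be a representative of the class of `i` (`Quotient.out`). For a
representative `i` choose `k ≁ i` and `r` with `∑ r j • v j ∈ Z (some i)`, `r k ≠ 0`, `b (some i) = r : F → ℝ`. For other `i`
let `b (some i) = (1/ℓ(v i)) • Pi.single i 1 - (1/ℓ(v (rep i))) • Pi.single (rep i) 1`. `b none`: a nonzero `r`
with `∑ r j • v j ∈ Z none`. The family `b : Option F → (F → ℝ)` is linearly independent: let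
`∑ J, c J • b J = 0` (`Fintype.linearIndependent_iff`). For a class `C` put `x = ∑ i ∈ C, c (some i) • b (some i)` and
`u = ∑ j, x j • v j ∈ Z_C`; `-u ∈ Z none ⊔ ⨆ i ∉ C, Z i` as `-x = c none • b none + ∑ i ∉ C, ..` and
`Z_C' ≤ ⨆ i ∉ C, Z i` for the other classes. So `u = 0`, `x = 0`. At the coordinate `k ∉ C` of the representative
`ρ` only `b (some ρ)` is nonzero: `c (some ρ) = 0`; at `i ∈ C`, `i ≠ ρ`: `c (some i) / ℓ(v i) = 0`. So all
`c (some i) = 0`, and `c none = 0`. But `card (Option F) > card F = finrank (F → ℝ)`
(`LinearIndependent.fintype_card_le_finrank`, `Module.finrank_fintype_fun_eq_card`): contradiction.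
-/

set_option autoImplicit false

namespace Pool.Agent.H97.Dst

open scoped Classical

section

variable {F : Type*} {E : Type*} [AddCommGroup E] [Module ℝ E]

private theorem eqv_cls (L : F → F → Prop) {i j : F} (h : Relation.EqvGen L i j) :
    {k | Relation.EqvGen L i k} = {k | Relation.EqvGen L j k} := by
  ext k
  exact ⟨fun h1 => (h.symm _ _).trans _ _ _ h1, fun h1 => h.trans _ _ _ h1⟩

private theorem edge_mem (v : F → E) (ℓ : E →ₗ[ℝ] ℝ) (hℓ : ∀ i, 0 < ℓ (v i))
    (Z : Option F → Submodule ℝ E) (hZ : ∀ J, ∀ u ∈ Z J, ℓ u = 0) (L : F → F → Prop)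
    (hL : ∀ i j, i ≠ j → L i j →
      ∃ α β : ℝ, (α ≠ 0 ∨ β ≠ 0) ∧ α • v i + β • v j ∈ Z (some i) ⊔ Z (some j))
    {i j : F} (h : Relation.EqvGen L i j) :
    (ℓ (v i))⁻¹ • v i - (ℓ (v j))⁻¹ • v j ∈ ⨆ k ∈ {k | Relation.EqvGen L i k}, Z (some k) := by
  induction h with
  | rel i j h =>
    by_cases hij : i = j
    · subst hij
      rw [sub_self]
      exact Submodule.zero_mem _
    · obtain ⟨α, β, hαβ, hm⟩ := hL i j hij h
      have hle : Z (some i) ⊔ Z (some j) ≤ ⨆ k ∈ {k | Relation.EqvGen L i k}, Z (some k) :=
        sup_le (le_iSup₂_of_le i (Relation.EqvGen.refl i) le_rfl)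
          (le_iSup₂_of_le j (Relation.EqvGen.rel i j h) le_rfl)
      have h0 : ℓ (α • v i + β • v j) = 0 := by
        obtain ⟨a, ha, b, hb, hab⟩ := Submodule.mem_sup.1 hm
        rw [← hab, map_add, hZ _ a ha, hZ _ b hb, add_zero]
      rw [map_add, map_smul, map_smul, smul_eq_mul, smul_eq_mul] at h0
      have hi := hℓ i
      have hj := hℓ j
      have hα : α ≠ 0 := by
        intro hα
        rw [hα, zero_mul, zero_add] at h0
        rcases hαβ with h1 | h1
        · exact h1 hα
        · exact h1 ((mul_eq_zero.1 h0).resolve_right hj.ne')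
      have hkey : (ℓ (v i))⁻¹ • v i - (ℓ (v j))⁻¹ • v j = (α * ℓ (v i))⁻¹ • (α • v i + β • v j) := by
        rw [smul_add, smul_smul, smul_smul]
        have h1 : (α * ℓ (v i))⁻¹ * α = (ℓ (v i))⁻¹ := by
          field_simp
        have h2 : (α * ℓ (v i))⁻¹ * β = -(ℓ (v j))⁻¹ := by
          have h3 : α * ℓ (v i) = -(β * ℓ (v j)) := by linarith
          have h4 : β ≠ 0 := by
            intro h4
            rw [h4, zero_mul, add_zero] at h0
            exact hα ((mul_eq_zero.1 h0).resolve_right hi.ne')
          rw [h3]
          field_simp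
        rw [h1, h2, neg_smul, sub_eq_add_neg]
      rw [hkey]
      exact Submodule.smul_mem _ _ (hle hm)
  | refl i =>
    rw [sub_self]
    exact Submodule.zero_mem _
  | symm i j h ih =>
    rw [← eqv_cls L h, ← neg_sub]
    exact Submodule.neg_mem _ ih
  | trans i j k h1 h2 ih1 ih2 =>
    rw [← eqv_cls L h1] at ih2
    have := Submodule.add_mem _ ih1 ih2
    rwa [sub_add_sub_cancel] at this

end

theorem core {F : Type*} [Fintype F] [Nonempty F] {E : Type*} [AddCommGroup E] [Module ℝ E]
    (v : F → E) (hv : LinearIndependent ℝ v) (ℓ : E →ₗ[ℝ] ℝ) (hℓ : ∀ i, 0 < ℓ (v i))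
    (Z : Option F → Submodule ℝ E) (hZ : ∀ J, ∀ u ∈ Z J, ℓ u = 0) (L : F → F → Prop)
    (hL : ∀ i j, i ≠ j → L i j →
      ∃ α β : ℝ, (α ≠ 0 ∨ β ≠ 0) ∧ α • v i + β • v j ∈ Z (some i) ⊔ Z (some j))
    (hcov : ∀ J k, ∃ r : F → ℝ, (∑ i, r i • v i) ∈ Z J ∧ r k ≠ 0)
    (hind : ∀ C : Set F, (∀ i j, L i j → (i ∈ C ↔ j ∈ C)) →
      Disjoint (⨆ i ∈ C, Z (some i)) (Z none ⊔ ⨆ i ∈ Cᶜ, Z (some i))) : False := by
  -- classes
  set R : F → F → Prop := Relation.EqvGen L with hRdef
  have hRr : ∀ i, R i i := fun i => Relation.EqvGen.refl i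
  have hRs : ∀ {i j}, R i j → R j i := fun h => Relation.EqvGen.symm _ _ h
  have hRt : ∀ {i j k}, R i j → R j k → R i k := fun h1 h2 => Relation.EqvGen.trans _ _ _ h1 h2
  have hcl : ∀ i, ∀ a b, L a b → (a ∈ {k | R i k} ↔ b ∈ {k | R i k}) := by
    intro i a b h
    have hab : R a b := Relation.EqvGen.rel a b h
    exact ⟨fun h1 => hRt h1 hab, fun h1 => hRt h1 (hRs hab)⟩
  have hedge : ∀ i j, R i j →
      (ℓ (v i))⁻¹ • v i - (ℓ (v j))⁻¹ • v j ∈ ⨆ k ∈ {k | R i k}, Z (some k) :=
    fun i j h => edge_mem v ℓ hℓ Z hZ L hL h
  have hinj : ∀ r : F → ℝ, ∑ i, r i • v i = 0 → r = 0 := by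
    intro r hr
    ext i
    exact Fintype.linearIndependent_iff.1 hv r hr i
  by_cases hone : ∀ i j, R i j
  · obtain ⟨k⟩ := (inferInstance : Nonempty F)
    obtain ⟨r, hr, hrk⟩ := hcov none k
    have h0 := hZ _ _ hr
    rw [map_sum] at h0
    simp only [map_smul, smul_eq_mul] at h0
    have h1 : ∑ i, r i • v i = ∑ i, (r i * ℓ (v i)) • ((ℓ (v i))⁻¹ • v i - (ℓ (v k))⁻¹ • v k) := by
      simp only [smul_sub, Finset.sum_sub_distrib]
      rw [← Finset.sum_smul, h0, zero_smul, sub_zero]
      refine Finset.sum_congr rfl fun i _ => ?_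
      rw [smul_smul, mul_assoc, mul_inv_cancel₀ (hℓ i).ne', mul_one]
    have h2 : ∑ i, r i • v i ∈ ⨆ j ∈ {j | R k j}, Z (some j) := by
      rw [h1]
      refine Submodule.sum_mem _ fun i _ => Submodule.smul_mem _ _ ?_
      have h3 := hedge k i (hone k i)
      rw [← neg_sub]
      exact Submodule.neg_mem _ h3
    have h3 := Submodule.disjoint_def.1 (hind {j | R k j} (hcl k)) _ h2 (Submodule.mem_sup_left hr)
    exact hrk (by rw [hinj r h3]; rfl)
  · have hout : ∀ i, ∃ k, ¬ R i k := by
      intro i
      by_contra hcon
      push Not at hcon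
      exact hone fun a b => hRt (hRs (hcon a)) (hcon b)
    let S : Setoid F := ⟨R, ⟨hRr, hRs, hRt⟩⟩
    let rep : F → F := fun i => Quotient.out (Quotient.mk S i)
    have hrep : ∀ i, R (rep i) i := fun i => Quotient.exact (Quotient.out_eq (Quotient.mk S i))
    have hrepeq : ∀ {i j}, R i j → rep i = rep j := by
      intro i j h
      have : Quotient.mk S i = Quotient.mk S j := Quotient.sound h
      simp only [rep, this]
    choose kk hkk using hout
    choose ρ hρ1 hρ2 using fun i => hcov (some i) (kk i)
    obtain ⟨i1⟩ := (inferInstance : Nonempty F)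
    obtain ⟨r0, hr0, hr0k⟩ := hcov none i1
    let b : Option F → (F → ℝ) := fun J => match J with
      | none => r0
      | some i => if rep i = i then ρ i else
          (fun j => (ℓ (v i))⁻¹ * (if j = i then 1 else 0) - (ℓ (v (rep i)))⁻¹ * (if j = rep i then 1 else 0))
    have hbs : ∀ i, ∑ j, b (some i) j • v j ∈ ⨆ k ∈ {k | R i k}, Z (some k) := by
      intro i
      by_cases h : rep i = i
      · have : b (some i) = ρ i := by simp only [b, if_pos h]
        rw [this]
        exact Submodule.mem_iSup_of_mem i (Submodule.mem_iSup_of_mem (hRr i) (hρ1 i))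
      · have : b (some i) = (fun j => (ℓ (v i))⁻¹ * (if j = i then 1 else 0) -
            (ℓ (v (rep i)))⁻¹ * (if j = rep i then 1 else 0)) := by simp only [b, if_neg h]
        rw [this]
        have h1 : ∑ j, ((ℓ (v i))⁻¹ * (if j = i then (1 : ℝ) else 0) -
            (ℓ (v (rep i)))⁻¹ * (if j = rep i then 1 else 0)) • v j =
            (ℓ (v i))⁻¹ • v i - (ℓ (v (rep i)))⁻¹ • v (rep i) := by
          simp only [sub_smul, Finset.sum_sub_distrib, mul_ite, mul_one, mul_zero, ite_smul, zero_smul,
            Finset.sum_ite_eq', Finset.mem_univ, if_true]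
        rw [h1]
        exact hedge i (rep i) (hRs (hrep i))
    have hlin : LinearIndependent ℝ b := by
      rw [Fintype.linearIndependent_iff]
      intro c hc
      rw [Fintype.sum_option] at hc
      have hx : ∀ i0, (∑ i, if R i0 i then c (some i) • b (some i) else 0) = 0 := by
        intro i0
        apply hinj
        set x : F → ℝ := ∑ i, if R i0 i then c (some i) • b (some i) else 0 with hxdef
        set y : F → ℝ := ∑ i, if R i0 i then 0 else c (some i) • b (some i) with hydef
        have hxy : x + y + c none • b none = 0 := by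
          have h0 : x + y = ∑ i, c (some i) • b (some i) := by
            rw [hxdef, hydef, ← Finset.sum_add_distrib]
            refine Finset.sum_congr rfl fun i _ => ?_
            split_ifs <;> simp
          rw [h0, add_comm]
          exact hc
        have hT : ∀ (g : F → F → ℝ), ∑ j, (∑ i, g i) j • v j = ∑ i, ∑ j, g i j • v j := by
          intro g
          simp only [Finset.sum_apply, Finset.sum_smul]
          exact Finset.sum_comm
        have h1 : ∑ j, x j • v j ∈ ⨆ k ∈ {k | R i0 k}, Z (some k) := by
          rw [hxdef, hT]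
          refine Submodule.sum_mem _ fun i _ => ?_
          split_ifs with h
          · have h2 := hbs i
            have h3 : {k | R i k} = {k | R i0 k} := (eqv_cls L h).symm
            rw [h3] at h2
            have h4 : ∑ j, (c (some i) • b (some i)) j • v j = c (some i) • ∑ j, b (some i) j • v j := by
              rw [Finset.smul_sum]
              exact Finset.sum_congr rfl fun j _ => by rw [Pi.smul_apply, smul_assoc]
            rw [h4]
            exact Submodule.smul_mem _ _ h2
          · simp
        have h2 : ∑ j, y j • v j ∈ ⨆ k ∈ {k | R i0 k}ᶜ, Z (some k) := by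
          rw [hydef, hT]
          refine Submodule.sum_mem _ fun i _ => ?_
          split_ifs with h
          · simp
          · have h4 : ∑ j, (c (some i) • b (some i)) j • v j = c (some i) • ∑ j, b (some i) j • v j := by
              rw [Finset.smul_sum]
              exact Finset.sum_congr rfl fun j _ => by rw [Pi.smul_apply, smul_assoc]
            rw [h4]
            refine Submodule.smul_mem _ _ ?_
            have hle : (⨆ k ∈ {k | R i k}, Z (some k)) ≤ ⨆ k ∈ {k | R i0 k}ᶜ, Z (some k) := by
              refine iSup₂_le fun k hk => le_iSup₂_of_le k ?_ le_rfl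
              exact fun h5 => h (hRt h5 (hRs hk))
            exact hle (hbs i)
        have h3 : ∑ j, (c none • b none) j • v j ∈ Z none := by
          have h4 : ∑ j, (c none • b none) j • v j = c none • ∑ j, r0 j • v j := by
            rw [Finset.smul_sum]
            exact Finset.sum_congr rfl fun j _ => by rw [Pi.smul_apply, smul_assoc]
          rw [h4]
          exact Submodule.smul_mem _ _ hr0
        have h4 : ∑ j, x j • v j = -(∑ j, (c none • b none) j • v j + ∑ j, y j • v j) := by
          rw [eq_neg_iff_add_eq_zero, ← Finset.sum_add_distrib, ← Finset.sum_add_distrib]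
          refine Finset.sum_eq_zero fun j _ => ?_
          rw [← add_smul, ← add_smul]
          have h5 := congrFun hxy j
          simp only [Pi.add_apply, Pi.zero_apply] at h5
          have h6 : x j + ((c none • b none) j + y j) = 0 := by linarith
          rw [h6, zero_smul]
        refine Submodule.disjoint_def.1 (hind {j | R i0 j} (hcl i0)) _ h1 ?_
        rw [h4]
        exact Submodule.neg_mem _ (Submodule.add_mem_sup h3 h2)
      -- representatives
      have hcρ : ∀ i, rep i = i → c (some i) = 0 := by
        intro i hi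
        have h1 := congrFun (hx i) (kk i)
        rw [Finset.sum_apply, Finset.sum_eq_single i] at h1
        · rw [if_pos (hRr i)] at h1
          have h2 : b (some i) = ρ i := by simp only [b, if_pos hi]
          rw [h2, Pi.smul_apply, smul_eq_mul, Pi.zero_apply] at h1
          exact (mul_eq_zero.1 h1).resolve_right (hρ2 i)
        · intro j _ hj
          split_ifs with h
          · have h2 : rep j = i := by rw [← hrepeq h, hi]
            have h3 : ¬ rep j = j := by rw [h2]; exact fun h4 => hj h4.symm
            have h4 : kk i ≠ j := by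
              intro h5
              exact hkk i (h5 ▸ h)
            have h5 : kk i ≠ rep j := by
              rw [h2]
              intro h6
              exact hkk i (by rw [h6]; exact hRr i)
            simp only [b, if_neg h3, Pi.smul_apply, if_neg h4, if_neg h5, smul_eq_mul]
            ring
          · rfl
        · intro h
          exact absurd (Finset.mem_univ i) h
      have hcs : ∀ i, c (some i) = 0 := by
        intro i
        by_cases hi : rep i = i
        · exact hcρ i hi
        · have h1 := congrFun (hx i) i
          rw [Finset.sum_apply, Finset.sum_eq_single i] at h1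
          · rw [if_pos (hRr i)] at h1
            have hi' : i ≠ rep i := fun h => hi h.symm
            simp only [b, if_neg hi, Pi.smul_apply, if_true, if_neg hi', smul_eq_mul, Pi.zero_apply,
              mul_one, mul_zero, sub_zero] at h1
            exact (mul_eq_zero.1 h1).resolve_right (inv_ne_zero (hℓ i).ne')
          · intro j _ hj
            split_ifs with h
            · by_cases hjr : rep j = j
              · rw [hcρ j hjr, zero_smul]
                rfl
              · have h4 : i ≠ j := fun h5 => hj h5.symm
                have h5 : i ≠ rep j := by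
                  rw [← hrepeq h]
                  exact fun h6 => hi h6.symm
                simp only [b, if_neg hjr, Pi.smul_apply, if_neg h4, if_neg h5, smul_eq_mul]
                ring
            · rfl
          · intro h
            exact absurd (Finset.mem_univ i) h
      intro J
      match J with
      | some i => exact hcs i
      | none =>
        have h1 : c none • b none = 0 := by
          rw [← hc]
          simp [hcs]
        have h2 := congrFun h1 i1
        simp only [b, Pi.smul_apply, smul_eq_mul, Pi.zero_apply] at h2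
        exact (mul_eq_zero.1 h2).resolve_right hr0k
    have h1 := hlin.fintype_card_le_finrank
    rw [Module.finrank_fintype_fun_eq_card, Fintype.card_option] at h1
    omega

end Pool.Agent.H97.Dst
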