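import Pool.Agent.H97.Dst.Defs
import Pool.Agent.H97.Star.AnB

/-!
# The linear form

Part of `MP_644d19_co` (multiplicity-free theorem). `p` is injective. There is a linear form `ℓ` on the
functions on `X`, positive on nonnegative nonzero functions, with `ℓ (ψ ∘ p) = mean σ μ k ψ` for all `ψ`
that are fixed by `Mo Γ` at the type `k`.

* `mo_nonneg`: `0 ≤ Mo γ φ` if `0 ≤ φ` (induction on `γ`, `op_apply`: a sum of nonnegative numbers divided
  by a natural number).
* `exists_psi`: for `x : X` there is `ψ` with `0 ≤ ψ ≤ 1`, `Mo Γ ψ = ψ`, `ψ (p y) = if y = x then 1 else 0`: `exists_fixed`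
  (`Cyc/Lim.lean`) for the compact convex set of the `ψ` with `0 ≤ ψ ≤ 1` and these values at the `p y` (it
  contains `q ↦ if q = p x then 1 else 0`, as `p` is injective; invariance: `mo_nonneg`, `mo_bound` with `C = 1`,
  `mo_eq` with `hA.one`).
* `exists_ell`: `ℓ g = ∑ x, g x * mean σ μ k (ψ x)`. `mean σ μ k (ψ x) > 0` by `mean_pos` at `q = p x`. For `ψ'` fixed at the
  type `k` the function `ψ' - ∑ x, ψ' (p x) • ψ x` is fixed at the type `k` and `0` at all `p y`, so `0` on the type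
  `k` (`mo_zero`); take means (`mean_congr`; the mean is linear).
-/

set_option autoImplicit false

namespace Pool.Agent.H97.Dst

open Pool.Agent.H75.Bunchy Pool.Agent.H26.Bunchy Pool.Agent.H97.Bun Pool.Agent.H97.Cyc
open Pool.Agent.H97.Star
open scoped Classical

variable {V K E X : Type*} [Fintype V] [Fintype E] [Fintype X] {s t : E → K} {σ : V → K}
  {a : V → E → V} {μ : V → ℝ} {p : X → V} {k : K} {Γ : List K}

omit [Fintype V] in
lemma mo_nonneg (γ : List K) {φ : V → ℝ} (hφ : ∀ q, 0 ≤ φ q) (q : V) :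
    0 ≤ Mo s t σ a γ φ q := by
  induction γ generalizing q with
  | nil => exact hφ q
  | cons κ γ ih =>
    change 0 ≤ (∑ e, if e ∈ ({e | t e = κ} : Set E) ∧ s e = σ q then Mo s t σ a γ φ (a q e) else 0) /
      ((Finset.univ.filter fun e => e ∈ ({e | t e = κ} : Set E) ∧ s e = σ q).card : ℝ)
    refine div_nonneg (Finset.sum_nonneg fun e _ => ?_) (Nat.cast_nonneg _)
    split_ifs
    · exact ih _
    · exact le_rfl

omit [Fintype V] [Fintype X] in
private lemma ell_closed (p : X → V) (x : X) :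
    IsClosed {ψ : V → ℝ | (∀ q, 0 ≤ ψ q ∧ ψ q ≤ 1) ∧ ∀ y, ψ (p y) = if y = x then 1 else 0} := by
  refine IsClosed.inter ?_ ?_
  · have : {ψ : V → ℝ | ∀ q, 0 ≤ ψ q ∧ ψ q ≤ 1} = ⋂ q, {ψ : V → ℝ | 0 ≤ ψ q ∧ ψ q ≤ 1} := by
      ext ψ; simp
    change IsClosed {ψ : V → ℝ | ∀ q, 0 ≤ ψ q ∧ ψ q ≤ 1}
    rw [this]
    exact isClosed_iInter fun q => (isClosed_le continuous_const (continuous_apply q)).inter
      (isClosed_le (continuous_apply q) continuous_const)
  · have : {ψ : V → ℝ | ∀ y, ψ (p y) = if y = x then 1 else 0} =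
        ⋂ y : X, {ψ : V → ℝ | ψ (p y) = if y = x then 1 else 0} := by
      ext ψ
      simp only [Set.mem_ofPred_eq, Set.mem_iInter]
    change IsClosed {ψ : V → ℝ | ∀ y, ψ (p y) = if y = x then 1 else 0}
    rw [this]
    exact isClosed_iInter fun y => isClosed_eq (continuous_apply _) continuous_const

omit [Fintype X] in
theorem exists_psi (ha : Typed s t σ a) (hA : Abs s σ a k Γ p) (hp : Function.Injective p)
    (x : X) : ∃ ψ : V → ℝ, (∀ q, 0 ≤ ψ q) ∧ (∀ q, σ q = k → Mo s t σ a Γ ψ q = ψ q) ∧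
      ∀ y, ψ (p y) = if y = x then 1 else 0 := by
  set S : Set (V → ℝ) := {ψ : V → ℝ | (∀ q, 0 ≤ ψ q ∧ ψ q ≤ 1) ∧
      ∀ y, ψ (p y) = if y = x then 1 else 0} with hS
  have hclosed : IsClosed S := ell_closed p x
  have habs : ∀ ψ ∈ S, ∀ q, |ψ q| ≤ 1 := fun ψ hψ q => by
    rw [abs_of_nonneg (hψ.1 q).1]
    exact (hψ.1 q).2
  have hbdd : Bornology.IsBounded S := by
    refine (Metric.isBounded_iff_subset_closedBall (0 : V → ℝ)).2 ⟨1, fun ψ hψ => ?_⟩
    rw [mem_closedBall_zero_iff]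
    exact (pi_norm_le_iff_of_nonneg zero_le_one).2 fun q => by
      rw [Real.norm_eq_abs]; exact habs ψ hψ q
  have hcomp : IsCompact S := Metric.isCompact_of_isClosed_isBounded hclosed hbdd
  have hconv : Convex ℝ S := by
    intro f hf g hg r q hr hq hrq
    refine ⟨fun z => ⟨?_, ?_⟩, fun y => ?_⟩
    · rw [Pi.add_apply, Pi.smul_apply, Pi.smul_apply, smul_eq_mul, smul_eq_mul]
      exact add_nonneg (mul_nonneg hr (hf.1 z).1) (mul_nonneg hq (hg.1 z).1)
    · rw [Pi.add_apply, Pi.smul_apply, Pi.smul_apply, smul_eq_mul, smul_eq_mul]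
      calc r * f z + q * g z ≤ r * 1 + q * 1 := add_le_add (mul_le_mul_of_nonneg_left (hf.1 z).2 hr)
            (mul_le_mul_of_nonneg_left (hg.1 z).2 hq)
        _ = 1 := by rw [mul_one, mul_one, hrq]
    · rw [Pi.add_apply, Pi.smul_apply, Pi.smul_apply, smul_eq_mul, smul_eq_mul,
        hf.2 y, hg.2 y, ← add_mul, hrq, one_mul]
  have hne : S.Nonempty := by
    refine ⟨fun q => if q = p x then 1 else 0, fun q => ?_, fun y => ?_⟩
    · show 0 ≤ (if q = p x then (1 : ℝ) else 0) ∧ (if q = p x then (1 : ℝ) else 0) ≤ 1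
      split_ifs <;> norm_num
    · show (if p y = p x then (1 : ℝ) else 0) = if y = x then 1 else 0
      by_cases h : y = x
      · rw [if_pos h, if_pos (by rw [h])]
      · rw [if_neg h, if_neg (fun h' => h (hp h'))]
  have hinv : ∀ ψ ∈ S, Mo s t σ a Γ ψ ∈ S := by
    intro ψ hψ
    refine ⟨fun q => ⟨mo_nonneg Γ (fun q => (hψ.1 q).1) q, ?_⟩, fun y => ?_⟩
    · exact (le_abs_self _).trans (mo_bound Γ zero_le_one (habs ψ hψ) q)
    · refine mo_eq ha (fun z hz => ?_) ⟨p y, ?_⟩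
      · have h1 := (hA.one y z).1 hz
        rw [h1]
        exact hψ.2 y
      · exact (hA.one y (p y)).2 rfl
  obtain ⟨ψ, hψS, hψ⟩ := exists_fixed (Mo s t σ a Γ) hcomp hconv hne hinv
  exact ⟨ψ, fun q => (hψS.1 q).1, fun q _ => by rw [hψ], hψS.2⟩

omit [Fintype E] in
private lemma ell_mean_sum (c : X → ℝ) (f : X → V → ℝ) :
    mean σ μ k (fun q => ∑ x, c x * f x q) = ∑ x, c x * mean σ μ k (f x) := by
  unfold mean
  simp_rw [Finset.mul_sum]
  rw [Finset.sum_comm]
  refine Finset.sum_congr rfl fun q _ => ?_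
  split_ifs with h
  · refine Finset.sum_congr rfl fun x _ => ?_
    ring
  · simp

theorem exists_ell (hμ : ∀ q, 0 < μ q) (ha : Typed s t σ a) (hA : Abs s σ a k Γ p)
    (hp : Function.Injective p) : ∃ ℓ : (X → ℝ) →ₗ[ℝ] ℝ,
      (∀ g, (∀ x, 0 ≤ g x) → (∃ x, 0 < g x) → 0 < ℓ g) ∧
      ∀ ψ : V → ℝ, (∀ q, σ q = k → Mo s t σ a Γ ψ q = ψ q) →
        ℓ (fun x => ψ (p x)) = mean σ μ k ψ := by
  choose Ψ h0 h1 h2 using fun x => exists_psi (t := t) ha hA hp x
  have hm : ∀ x, 0 < mean σ μ k (Ψ x) := fun x =>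
    mean_pos hμ (fun q _ => h0 x q) (hA.typ x) (by rw [h2, if_pos rfl]; exact one_pos)
  refine ⟨{ toFun := fun g => ∑ x, g x * mean σ μ k (Ψ x)
            map_add' := fun g g' => by
              rw [← Finset.sum_add_distrib]
              refine Finset.sum_congr rfl fun x _ => ?_
              rw [Pi.add_apply, add_mul]
            map_smul' := fun r g => by
              rw [RingHom.id_apply, smul_eq_mul, Finset.mul_sum]
              refine Finset.sum_congr rfl fun x _ => ?_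
              rw [Pi.smul_apply, smul_eq_mul, mul_assoc] }, ?_, ?_⟩
  · rintro g hg ⟨x, hx⟩
    show 0 < ∑ x, g x * mean σ μ k (Ψ x)
    exact Finset.sum_pos' (fun y _ => mul_nonneg (hg y) (hm y).le)
      ⟨x, Finset.mem_univ _, mul_pos hx (hm x)⟩
  · intro ψ hψ
    show ∑ x, ψ (p x) * mean σ μ k (Ψ x) = mean σ μ k ψ
    rw [← ell_mean_sum]
    refine mean_congr fun q hq => ?_
    have hz := mo_zero (ψ := ψ - ∑ x, ψ (p x) • Ψ x) ha hA.typ hA.abs ?_ ?_ q hq
    · rw [Pi.sub_apply, Finset.sum_apply, sub_eq_zero] at hz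
      rw [hz]
      rfl
    · intro q hq
      rw [map_sub, map_sum, Pi.sub_apply, Pi.sub_apply, Finset.sum_apply, Finset.sum_apply, hψ q hq]
      congr 1
      refine Finset.sum_congr rfl fun x _ => ?_
      rw [map_smul, Pi.smul_apply, Pi.smul_apply, h1 x q hq]
    · intro y
      rw [Pi.sub_apply, Finset.sum_apply, sub_eq_zero, Finset.sum_eq_single y]
      · rw [Pi.smul_apply, h2, if_pos rfl, smul_eq_mul, mul_one]
      · intro x _ hx
        rw [Pi.smul_apply, h2, if_neg (fun h => hx h.symm), smul_zero]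
      · intro h
        exact absurd (Finset.mem_univ _) h

end Pool.Agent.H97.Dst
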