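import Pool.Agent.H97.Dst.Defs
import Pool.Agent.H97.Star.AnB

/-!
# The balanced functions as a member of the family

Part of `MP_644d19_co` (multiplicity-free theorem).

* `fam_NJ`: constants: `bl_const`. Indicator: at `κ` the function `1_κ f` agrees with `f` on the type `κ`
  (`bl_congr`), at the other types it is `0` there (`bl_congr` from `bl_zero`). Adjacency operator: at
  the type `κ` the mean of `adjA f` after a word `v` (from `j`, `fin = κ`) is
  `∑ e with s e = κ, mean (f after v ++ [e]) = ∑ e with s e = κ, c (t e)`, where `c` are the means of `f` (`run` has type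
  `κ` by `ha.run`; `mean` is additive, exchange the finite sums; see the proof of `bal_op` in
  `Cyc/OpB.lean`).
* `adjA_add`: additivity.
* `ax_le`: for `u ∈ Ax` with `ψ`, take `ψ₁ q = if σ q = k then ψ q else 0`. It agrees with `ψ` on the type `k`, so
  it is balanced with mean `0` at `k` (`bl_congr`) and at the other types (`0` there); `Mo Γ ψ₁ q = Mo Γ ψ q`
  for `q` of type `k` (`mo_eq`-like: `Mo Γ (ψ₁ - ψ) q = 0` by `mo_eq`, since the ends over `Γ` have type `k`: `al_type`
  with the end `p y` of `hA.abs q`); the mean: `Bl` with `v = []`.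
* `nj_const`: `f` is balanced at `k` for both; `bl_iff e1 e2` and `const_nil`.
-/

set_option autoImplicit false

namespace Pool.Agent.H97.Dst

open Pool.Agent.H75.Bunchy Pool.Agent.H26.Bunchy Pool.Agent.H97.Bun Pool.Agent.H97.Cyc
open Pool.Agent.H97.Star
open scoped Classical

variable {V K E X : Type*} [Fintype V] [Fintype E] {s t : E → K} {σ : V → K} {a : V → E → V}
  {e1 e2 : E} {μ : V → ℝ} {p : X → V} {k : K} {Γ : List K}

omit [Fintype V] in
lemma adjA_add (f g : V → ℝ) : adjA s σ a (f + g) = adjA s σ a f + adjA s σ a g := by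
  funext q
  simp only [adjA, Pi.add_apply]
  rw [← Finset.sum_add_distrib]
  refine Finset.sum_congr rfl fun e _ => ?_
  split_ifs <;> simp

private lemma fjn_mean_sum (σ : V → K) (μ : V → ℝ) (k : K) (f : E → V → ℝ) :
    mean σ μ k (fun p => ∑ e, f e p) = ∑ e, mean σ μ k (f e) := by
  unfold mean
  rw [Finset.sum_comm]
  refine Finset.sum_congr rfl fun p _ => ?_
  split_ifs
  · rw [Finset.mul_sum]
  · simp

omit [Fintype E] in
private lemma fjn_ind (ha : Typed s t σ a) {f : V → ℝ} {c : ℝ} (κ : K)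
    (h : Bl s t σ a μ κ f c) (κ' : K) :
    ∃ d, Bl s t σ a μ κ' (fun q => if σ q = κ then f q else 0) d := by
  by_cases hk : κ' = κ
  · subst hk
    exact ⟨c, bl_congr ha (fun q hq => by rw [if_pos hq]) h⟩
  · exact ⟨0, bl_congr ha (fun q hq => by
      rw [if_neg (by rw [hq]; exact hk), Pi.zero_apply]) bl_zero⟩

theorem fam_NJ (hμ : ∀ q, 0 < μ q) (ha : Typed s t σ a) :
    Fam (adjA s σ a) σ (NJ s t σ a μ) := by
  refine ⟨fun κ => ⟨1, bl_const hμ 1⟩, ?_, ?_⟩
  · intro κ f hf κ'
    obtain ⟨c, hc⟩ := hf κ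
    exact fjn_ind ha κ hc κ'
  · intro f hf κ
    choose c hc using hf
    refine ⟨∑ e, if s e = κ then c (t e) else 0, ?_⟩
    intro j v hj hv hfin
    have h1 : mean σ μ j (fun p => adjA s σ a f (run a p v)) =
        mean σ μ j (fun p => ∑ e, if s e = κ then f (run a p (v ++ [e])) else 0) := by
      refine mean_congr fun p hp => ?_
      have h2 : σ (run a p v) = κ := by
        rw [ha.run p v (by rw [hp]; exact hv), hp, hfin]
      simp only [adjA, h2]
      refine Finset.sum_congr rfl fun e _ => ?_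
      rw [run_append]
      rfl
    rw [h1, fjn_mean_sum]
    refine Finset.sum_congr rfl fun e _ => ?_
    by_cases he : s e = κ
    · simp only [he, if_true]
      exact hc (t e) j (v ++ [e]) hj
        ((valid_append _ _ _).2 ⟨hv, by rw [hfin]; exact ⟨he, trivial⟩⟩)
        (by rw [fin_append]; rfl)
    · simp only [he, if_false]
      simp [mean]

theorem ax_le (ha : Typed s t σ a) (hA : Abs s σ a k Γ p) [Nonempty X] :
    Ax s t σ a μ k Γ p ≤ (NJ s t σ a μ ⊓ Fx s t σ a μ k Γ).map (rst p) := by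
  rintro u ⟨ψ, h1, h2, h3⟩
  obtain ⟨x0⟩ := ‹Nonempty X›
  refine ⟨fun q => if σ q = k then ψ q else 0,
    ⟨fun κ => fjn_ind ha k h2 κ, ?_, fun q hq => if_neg hq, ?_⟩, ?_⟩
  · intro q hq
    obtain ⟨y, hy⟩ := hA.abs q hq
    have hz : Mo s t σ a Γ ((fun q => if σ q = k then ψ q else 0) - ψ) q = 0 := by
      refine mo_eq ha (fun z hz => ?_) ⟨_, hy⟩
      have hzk : σ z = k := by
        rw [al_type hz hy rfl, hA.typ y]
      simp [hzk]
    rw [map_sub, Pi.sub_apply, h1 q hq] at hz
    have h5 : (fun q => if σ q = k then ψ q else 0) q = ψ q := if_pos hq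
    rw [h5]
    linarith
  · have h := h2 k [] ⟨p x0, hA.typ x0⟩ trivial rfl
    rw [← h]
    refine mean_congr fun q hq => ?_
    rw [if_pos hq]
    rfl
  · funext x
    change (if σ (p x) = k then ψ (p x) else 0) = u x
    rw [if_pos (hA.typ x), h3]

theorem nj_const (hμ : ∀ q, 0 < μ q) (hs : s e1 = s e2) (ht : t e1 = t e2)
    (ha : Typed s t σ a) {x : V} (hx : s e1 = σ x) (hT : Total s σ a (a x e1) (a x e2))
    {f : V → ℝ} (h : f ∈ NJ s t σ a μ) (h' : f ∈ NJ s t σ (flip e1 e2 {x} a) μ) (k : K) :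
    ∃ c, ∀ q, σ q = k → f q = c := by
  obtain ⟨c, hc⟩ := h k
  obtain ⟨c', hc'⟩ := h' k
  exact ⟨c, const_nil hμ hs ht ha hx hT ((bl_iff e1 e2).1 hc) ((bl_iff e1 e2).1 hc')⟩

end Pool.Agent.H97.Dst
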