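import Pool.Agent.H97.Dst.Defs

/-!
# The distributive law for finite families

Part of `MP_644d19_co` (multiplicity-free theorem).

* `fam_sup`, `fam_inf`: closure properties (`A` additive for `fam_sup`; `Submodule.mem_sup`).
* `Fam.coarse`: `1_κ f` is the finite sum of the `1_κ' f`, over the values `κ'` of `τ'` with `g κ' = κ`
  (`Set.toFinite (Set.range τ')`, `Submodule.sum_mem`).
* `DLaw.refine`: `Fam.coarse` for the three subspaces.
* `law_one`: `s` a nonempty finite set, `T` a member, `f ∈ s.sup S`, `f ∈ T`: some `g ∈ s.sup (fun i => S i ⊓ T)`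
  agrees with `f` on `X`. Induction (`Finset.Nonempty.cons_induction`): `s.sup S` is a member (`fam_sup`);
  for `cons i s`: `DLaw` for `S i`, `s.sup S`, `T` gives `g = u + w` (`Submodule.mem_sup`), `u ∈ S i ⊓ T`,
  `w ∈ s.sup S ⊓ T`; apply the induction hypothesis to `w`.
* `law_sup`: if all `f ∈ S i ⊓ S' j` are constant on `X`, so are all `f ∈ s.sup S ⊓ s'.sup S'`. The functions
  constant on `X` are a submodule `Cst`; first for a single `S i`: `f ∈ S i`, `f ∈ s'.sup S'`, by `law_one`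
  (`T = S i`) `f = g` on `X` with `g ∈ sup (S' j ⊓ S i) ≤ Cst`; then `law_one` with `T = s'.sup S'`. (If `s` or
  `s'` is empty then `f = 0`.)
-/

set_option autoImplicit false

namespace Pool.Agent.H97.Dst

open Pool.Agent.H97.Star
open scoped Classical

variable {V K K' : Type*} {A : (V → ℝ) → V → ℝ} {τ : V → K} {τ' : V → K'} {X : Set V}

private lemma ind_add (κ : K) (u w : V → ℝ) :
    (fun q => if τ q = κ then (u + w) q else 0)
      = (fun q => if τ q = κ then u q else 0) + (fun q => if τ q = κ then w q else 0) := by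
  funext q
  by_cases h : τ q = κ
  · simp [h]
  · simp [h]

lemma fam_sup (hA : ∀ f g, A (f + g) = A f + A g) {S₁ S₂ : Submodule ℝ (V → ℝ)}
    (h₁ : Fam A τ S₁) (h₂ : Fam A τ S₂) : Fam A τ (S₁ ⊔ S₂) := by
  refine ⟨Submodule.mem_sup_left h₁.one, ?_, ?_⟩
  · intro κ f hf
    obtain ⟨u, hu, w, hw, rfl⟩ := Submodule.mem_sup.1 hf
    rw [ind_add]
    exact Submodule.add_mem_sup (h₁.ind κ u hu) (h₂.ind κ w hw)
  · intro f hf
    obtain ⟨u, hu, w, hw, rfl⟩ := Submodule.mem_sup.1 hf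
    rw [hA]
    exact Submodule.add_mem_sup (h₁.adj u hu) (h₂.adj w hw)

lemma fam_inf {S₁ S₂ : Submodule ℝ (V → ℝ)} (h₁ : Fam A τ S₁) (h₂ : Fam A τ S₂) :
    Fam A τ (S₁ ⊓ S₂) :=
  ⟨⟨h₁.one, h₂.one⟩, fun κ f hf => ⟨h₁.ind κ f hf.1, h₂.ind κ f hf.2⟩,
    fun f hf => ⟨h₁.adj f hf.1, h₂.adj f hf.2⟩⟩

lemma Fam.coarse [Finite V] {g : K' → K} (hg : ∀ q, g (τ' q) = τ q) {S : Submodule ℝ (V → ℝ)}
    (h : Fam A τ' S) : Fam A τ S := by
  refine ⟨h.one, ?_, h.adj⟩
  intro κ f hf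
  have hfin : (Set.range τ').Finite := Set.toFinite _
  have he : (fun q => if τ q = κ then f q else 0)
      = ∑ κ' ∈ hfin.toFinset.filter (fun κ' => g κ' = κ),
          (fun q => if τ' q = κ' then f q else 0) := by
    funext q
    rw [Finset.sum_apply, Finset.sum_ite_eq]
    by_cases hq : τ q = κ
    · have hm : τ' q ∈ hfin.toFinset.filter (fun κ' => g κ' = κ) := by
        simp [hg, hq]
      rw [if_pos hq, if_pos hm]
    · have hm : τ' q ∉ hfin.toFinset.filter (fun κ' => g κ' = κ) := by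
        simp [hg, hq]
      rw [if_neg hq, if_neg hm]
  rw [he]
  exact S.sum_mem fun κ' _ => h.ind κ' f hf

lemma DLaw.refine [Finite V] {g : K' → K} (hg : ∀ q, g (τ' q) = τ q) (h : DLaw A τ X)
    {X' : Set V} (hX : X' ⊆ X) : DLaw A τ' X' := by
  intro S₁ S₂ S₃ h₁ h₂ h₃ f hf hf'
  obtain ⟨u, hu, he⟩ := h S₁ S₂ S₃ (h₁.coarse hg) (h₂.coarse hg) (h₃.coarse hg) f hf hf'
  exact ⟨u, hu, fun x hx => he x (hX hx)⟩

private lemma fam_fsup (hA : ∀ f g, A (f + g) = A f + A g) {ι : Type*}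
    (s : Finset ι) (hs : s.Nonempty) (S : ι → Submodule ℝ (V → ℝ)) (hS : ∀ i, Fam A τ (S i)) :
    Fam A τ (s.sup S) := by
  induction hs using Finset.Nonempty.cons_induction with
  | singleton i => rw [Finset.sup_singleton]; exact hS i
  | cons i s hi hs ih => rw [Finset.sup_cons]; exact fam_sup hA (hS i) ih

theorem law_one (hA : ∀ f g, A (f + g) = A f + A g) (hD : DLaw A τ X) {ι : Type*}
    (s : Finset ι) (hs : s.Nonempty) (S : ι → Submodule ℝ (V → ℝ)) (hS : ∀ i, Fam A τ (S i))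
    {T : Submodule ℝ (V → ℝ)} (hT : Fam A τ T) {f : V → ℝ} (hf : f ∈ s.sup S) (hf' : f ∈ T) :
    ∃ g ∈ s.sup (fun i => S i ⊓ T), ∀ x ∈ X, g x = f x := by
  induction hs using Finset.Nonempty.cons_induction generalizing f with
  | singleton i =>
    rw [Finset.sup_singleton] at hf
    refine ⟨f, ?_, fun _ _ => rfl⟩
    rw [Finset.sup_singleton]
    exact ⟨hf, hf'⟩
  | cons i s hi hs ih =>
    rw [Finset.sup_cons] at hf
    obtain ⟨g, hg, he⟩ := hD (S i) (s.sup S) T (hS i) (fam_fsup hA s hs S hS) hT f hf hf'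
    obtain ⟨u, hu, w, hw, rfl⟩ := Submodule.mem_sup.1 hg
    obtain ⟨w', hw', he'⟩ := ih hw.1 hw.2
    refine ⟨u + w', ?_, fun x hx => ?_⟩
    · rw [Finset.sup_cons]
      exact Submodule.add_mem_sup hu hw'
    · rw [← he x hx, Pi.add_apply, Pi.add_apply, he' x hx]

private def Cst (X : Set V) : Submodule ℝ (V → ℝ) where
  carrier := {f | ∃ c, ∀ x ∈ X, f x = c}
  zero_mem' := ⟨0, fun _ _ => rfl⟩
  add_mem' := by
    rintro f g ⟨c, hc⟩ ⟨d, hd⟩
    exact ⟨c + d, fun x hx => by rw [Pi.add_apply, hc x hx, hd x hx]⟩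
  smul_mem' := by
    rintro r f ⟨c, hc⟩
    exact ⟨r * c, fun x hx => by rw [Pi.smul_apply, hc x hx, smul_eq_mul]⟩

theorem law_sup (hA : ∀ f g, A (f + g) = A f + A g) (hD : DLaw A τ X) {ι κ : Type*}
    (s : Finset ι) (s' : Finset κ) (S : ι → Submodule ℝ (V → ℝ))
    (S' : κ → Submodule ℝ (V → ℝ)) (hS : ∀ i, Fam A τ (S i)) (hS' : ∀ j, Fam A τ (S' j))
    (hc : ∀ i ∈ s, ∀ j ∈ s', ∀ f ∈ S i ⊓ S' j, ∃ c, ∀ x ∈ X, f x = c) {f : V → ℝ}
    (hf : f ∈ s.sup S) (hf' : f ∈ s'.sup S') : ∃ c, ∀ x ∈ X, f x = c := by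
  rcases s.eq_empty_or_nonempty with rfl | hs
  · rw [Finset.sup_empty, Submodule.mem_bot] at hf
    exact ⟨0, fun x _ => by rw [hf]; rfl⟩
  rcases s'.eq_empty_or_nonempty with rfl | hs'
  · rw [Finset.sup_empty, Submodule.mem_bot] at hf'
    exact ⟨0, fun x _ => by rw [hf']; rfl⟩
  have hone : ∀ i ∈ s, ∀ u ∈ S i ⊓ s'.sup S', u ∈ Cst X := by
    intro i hi u hu
    obtain ⟨w, hw, he⟩ := law_one hA hD s' hs' S' hS' (hS i) hu.2 hu.1
    have hle : s'.sup (fun j => S' j ⊓ S i) ≤ Cst X := by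
      refine Finset.sup_le fun j hj v hv => ?_
      exact hc i hi j hj v ⟨hv.2, hv.1⟩
    obtain ⟨c, hcw⟩ := hle hw
    exact ⟨c, fun x hx => by rw [← he x hx, hcw x hx]⟩
  obtain ⟨w, hw, he⟩ := law_one hA hD s hs S hS (fam_fsup hA s' hs' S' hS') hf hf'
  have hle : s.sup (fun i => S i ⊓ s'.sup S') ≤ Cst X :=
    Finset.sup_le fun i hi v hv => hone i hi v hv
  obtain ⟨c, hcw⟩ := hle hw
  exact ⟨c, fun x hx => by rw [← he x hx, hcw x hx]⟩

end Pool.Agent.H97.Dst
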