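import Pool.Agent.H97.Dst.Defs
import Pool.Agent.H97.Star.Min
import Pool.Agent.H97.Star.TwoF
import Pool.Agent.H97.Star.Sep
import Pool.Agent.H97.Bun.StatU

/-!
# Linked states, and covering

Part of `MP_644d19_co` (multiplicity-free theorem). `w` is a word from `k` to the type `s e1`, which
acts on the `p y` in the same way for all exchanges of `e1`, `e2`.

* `link`: `f` is balanced for `ai = flip e1 e2 {i} a` and for `aj = flip e1 e2 {j} a`, and is not constant on the
  type `k`. The mean `c` of `f` at `k` is the same (`Bl` with `v = []`). `f - c` is balanced with mean `0` at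
  `k` for both, so `two_flips` (`Star/TwoF.lean`) gives `g` (for `ai`), `g'` (for `aj`) with `g = g'` on the type `σ i`
  except at `i`, `j`, and `g i ≠ g' i` or `g j ≠ g' j`. Put `α = g i - g' i`, `β = g j - g' j`. By `pull` (with `hζ`)
  `x ↦ g (run a (p x) w)` is in `Ax` of `ai`, `x ↦ g' (run a (p x) w)` in `Ax` of `aj`, and the difference is
  `x ↦ (if run a (p x) w = i then α else 0) + (if run a (p x) w = j then β else 0)`, as all `run a (p x) w` have the type
  `σ i`. (Compare `star_two` in `Star/StarB.lean`.)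
* `cover`: `b` has no stable pair, `z` is flexible for `b`. `bl_sep` gives `f` balanced with mean `c` at the
  type `t e1` with `f (b z e1) ≠ f (b z e2)`. `h q = f (b q e1) - f (b q e2)` is balanced with mean `0` at the type `s e1`
  (`bl_run` for `[e1]`, `[e2]`, `bl_add`, `bl_smul (-1)`), and `0` at the states `q` of type `s e1` that are not
  flexible. `pull`.
-/

set_option autoImplicit false

namespace Pool.Agent.H97.Dst

open Pool.Agent.H75.Bunchy Pool.Agent.H26.Bunchy Pool.Agent.H97.Bun Pool.Agent.H97.Cyc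
open Pool.Agent.H97.Star
open scoped Classical

variable {V K E X : Type*} [Fintype V] [Fintype E] [Nonempty X] {s t : E → K}
  {σ : V → K} {a : V → E → V} {e1 e2 : E} {μ : V → ℝ} {pr : E → ℝ} {p : X → V} {k : K}
  {Γ : List K}

theorem link (hμ : ∀ q, 0 < μ q) (ha : Typed s t σ a) (hs : s e1 = s e2) (ht : t e1 = t e2)
    (hA : Abs s σ a k Γ p) {w : List E} (hw : Valid s t k w)
    (hζ : ∀ (δ : Set V) (y : X), run (flip e1 e2 δ a) (p y) w = run a (p y) w)
    {i j : V} (hij : i ≠ j) (hi : s e1 = σ i) (hj : s e1 = σ j) (hfin : fin t k w = s e1)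
    (hTi' : Total s σ (flip e1 e2 {i} a) (a i e2) (a i e1)) {f : V → ℝ}
    (hf : f ∈ NJ s t σ (flip e1 e2 {i} a) μ) (hf' : f ∈ NJ s t σ (flip e1 e2 {j} a) μ)
    (hnc : ¬ ∃ c, ∀ q, σ q = k → f q = c) :
    ∃ α β : ℝ, (α ≠ 0 ∨ β ≠ 0) ∧
      (fun x => (if run a (p x) w = i then α else 0) + (if run a (p x) w = j then β else 0)) ∈
        Ax s t σ (flip e1 e2 {i} a) μ k Γ p ⊔ Ax s t σ (flip e1 e2 {j} a) μ k Γ p := by
  have hai : Typed s t σ (flip e1 e2 {i} a) := ha.flip hs ht {i}
  have haj : Typed s t σ (flip e1 e2 {j} a) := ha.flip hs ht {j}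
  have hAi : Abs s σ (flip e1 e2 {i} a) k Γ p := hA.flip hs {i}
  have hAj : Abs s σ (flip e1 e2 {j} a) k Γ p := hA.flip hs {j}
  obtain ⟨x⟩ := ‹Nonempty X›
  have : Nonempty X := ⟨x⟩
  have hk : ∃ q, σ q = k := ⟨p x, hA.typ x⟩
  obtain ⟨c, hc⟩ := hf k
  obtain ⟨c', hc'⟩ := hf' k
  have hm : mean σ μ k f = c := hc k [] hk trivial rfl
  have hm' : mean σ μ k f = c' := hc' k [] hk trivial rfl
  have hcc : c' = c := hm'.symm.trans hm
  subst hcc
  have h0 : Bl s t σ (flip e1 e2 {i} a) μ k (f + fun _ => -c') 0 := by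
    have := bl_add hc (bl_const hμ (-c'))
    rwa [add_neg_cancel] at this
  have h0' : Bl s t σ (flip e1 e2 {j} a) μ k (f + fun _ => -c') 0 := by
    have := bl_add hc' (bl_const hμ (-c'))
    rwa [add_neg_cancel] at this
  rcases two_flips hs ht ha hij (hj.symm.trans hi) hi hTi' h0 h0' with
    hcon | ⟨g, g', hg, hg', hgg, hne⟩
  · exfalso
    refine hnc ⟨f (p x), fun q hq => ?_⟩
    have := hcon q (p x) hq (hA.typ x)
    simp only [Pi.add_apply] at this
    linarith
  have hfi : fin t k w = σ i := by rw [hfin, hi]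
  have hp1 : (fun x => g (run a (p x) w)) ∈ Ax s t σ (flip e1 e2 {i} a) μ k Γ p := by
    have := pull hμ hai hAi hw (f := g) (c := 0) (by rw [hfi]; exact hg)
    simpa only [hζ, sub_zero] using this
  have hp2 : (fun x => g' (run a (p x) w)) ∈ Ax s t σ (flip e1 e2 {j} a) μ k Γ p := by
    have := pull hμ haj hAj hw (f := g') (c := 0) (by rw [hfi]; exact hg')
    simpa only [hζ, sub_zero] using this
  have htyp : ∀ y, σ (run a (p y) w) = σ i := by
    intro y
    rw [ha.run (p y) w (by rw [hA.typ]; exact hw), hA.typ, hfi]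
  refine ⟨g i - g' i, g j - g' j, ?_, ?_⟩
  · rcases hne with hne | hne
    · exact Or.inl (sub_ne_zero.2 hne)
    · exact Or.inr (sub_ne_zero.2 hne)
  · have he : (fun x => (if run a (p x) w = i then g i - g' i else 0) +
        (if run a (p x) w = j then g j - g' j else 0)) =
        (fun x => g (run a (p x) w)) - (fun x => g' (run a (p x) w)) := by
      funext y
      rw [Pi.sub_apply]
      by_cases k1 : run a (p y) w = i
      · have k2 : run a (p y) w ≠ j := fun h => hij (k1.symm.trans h)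
        rw [if_pos k1, if_neg k2, k1, add_zero]
      · by_cases k2 : run a (p y) w = j
        · rw [if_neg k1, if_pos k2, k2, zero_add]
        · rw [if_neg k1, if_neg k2, hgg _ (htyp y) k1 k2, sub_self, add_zero]
    rw [he]
    exact sub_mem (Submodule.mem_sup_left hp1) (Submodule.mem_sup_right hp2)

theorem cover {b : V → E → V} (hb : Typed s t σ b) (hcn : Conn s σ b) (h : Stat s σ b pr μ)
    (hs : s e1 = s e2) (ht : t e1 = t e2) (hsu : ∀ e, ∃ p, s e = σ p) (hA : Abs s σ b k Γ p)
    (hno : NoStable s t σ b) {w : List E} (hw : Valid s t k w) (hfin : fin t k w = s e1) {z : V}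
    (hz : Flx s t σ b e1 e2 z) : ∃ h : V → ℝ,
      (∀ q, σ q = s e1 → ¬ Flx s t σ b e1 e2 q → h q = 0) ∧ h z ≠ 0 ∧
      (fun x => h (run b (p x) w)) ∈ Ax s t σ b μ k Γ p := by
  have hμ := h.mu_pos
  obtain ⟨_, _, hz1, hz2⟩ := hz
  have h1 : σ (b z e1) = t e1 := hb z e1 hz1
  have h2 : σ (b z e2) = t e2 := hb z e2 (by rw [← hs]; exact hz1)
  obtain ⟨f, c, hf, hff⟩ := bl_sep hs ht hb hcn h hsu hno (h1.trans (ht.trans h2.symm)) hz2
  rw [h1] at hf
  have hf2 : Bl s t σ b μ (t e2) f c := by rw [← ht]; exact hf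
  have k1 : Bl s t σ b μ (s e1) (fun q => f (run b q [e1])) c :=
    bl_run (w := [e1]) ⟨rfl, trivial⟩ hf
  have k2 : Bl s t σ b μ (s e1) (fun q => f (run b q [e2])) c :=
    bl_run (w := [e2]) ⟨hs.symm, trivial⟩ hf2
  have k3 := bl_add k1 (bl_smul (-1) k2)
  have k4 : Bl s t σ b μ (fin t k w) (fun q => f (b q e1) - f (b q e2)) 0 := by
    have e : (fun q => f (b q e1) - f (b q e2)) =
        (fun q => f (run b q [e1])) + (-1 : ℝ) • (fun q => f (run b q [e2])) := by
      funext q
      simp only [Pi.add_apply, Pi.smul_apply, smul_eq_mul, run_cons, run_nil]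
      ring
    rw [e, hfin]
    rwa [show c + -1 * c = 0 by ring] at k3
  refine ⟨fun q => f (b q e1) - f (b q e2), fun q hq hn => ?_, sub_ne_zero.2 hff, ?_⟩
  · have : b q e1 = b q e2 := by
      by_contra hne
      exact hn ⟨hs, ht, hq.symm, hne⟩
    simp only [this, sub_self]
  · have := pull hμ hb hA hw (c := 0) k4
    simpa only [sub_zero] using this

end Pool.Agent.H97.Dst
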