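import Pool.Agent.H97.Dst.Atr
import Pool.Agent.H97.Dst.Law
import Pool.Agent.H97.Dst.Core
import Pool.Agent.H97.Dst.Fjn
import Pool.Agent.H97.Dst.Ell
import Pool.Agent.H97.Dst.Lnk

/-!
# The total case

Part of `MP_644d19_co` (multiplicity-free theorem).

`asm_ind`: the independence for `core`. Let `C ⊆ F` be such that for `i ∈ C`, `j ∉ C` all
`f ∈ NJ i ⊓ NJ j` are constant on the type `k`, and all `f ∈ NJ none ⊓ NJ i`, `i ∈ C` too. Let
`Z J = (N J ⊓ Fx).map (rst p)`. Let `u` be in `⨆ i ∈ C, Z i` and in `Z none ⊔ ⨆ i ∉ C, Z i`. As `map` commutes with suprema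
(`Submodule.map_iSup`), `u = rst p ψ = rst p ψ'` with `ψ ∈ ⨆ i ∈ C, (N i ⊓ Fx)`, `ψ' ∈ (N none ⊓ Fx) ⊔ ..`. Both are in
`Fx`, so `ψ = ψ'` off the type `k`, and on the type `k` by `mo_zero` for `ψ - ψ'`. So `ψ` lies in
`⨆ i ∈ C, N i` and in `N none ⊔ ⨆ i ∉ C, N i`; both are finite suprema (`Finset.sup` over `Option F`). By
`law_sup` `ψ` is constant on `X`: `u = c`. `ℓ u = mean ψ = 0` and `ℓ (fun _ => c) = c * ℓ 1`, `ℓ 1 > 0`; so `c = 0`.

`dst_total`: `Atr.exists_abs` gives `k`, `Γ`; let `p : X → V` be the inclusion (`X` as a type); `Abs` holds.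
`exists_min` gives `w, e1, e2, x`, `F = {i // Flx s t σ a e1 e2 i ∧ ∃ y : X, run a (p y) w = i}` (nonempty),
`N none = NJ a`, `N (some i) = NJ (flip e1 e2 {i} a)`: members (`fam_NJ`, `adj_flip`). `v i x = if run a (p x) w = i then 1
else 0` (linearly independent: evaluate at some `x` with `run a (p x) w = i`). `ℓ` from `exists_ell` (positive on `v i`);
`Z J` as above; `ℓ u = 0` for `u ∈ Z J` (mean `0`). `L i j := ¬ ∀ f ∈ N i ⊓ N j, ∃ c, ∀ q, σ q = k → f q = c` (for `i ≠ j`).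
`hL`: `link` and `ax_le` (for `flip i`, `flip j`: `Abs.flip`, `mo_flip`, so `Fx` and `Mo` are the same). `hcov`: `cover` for
`b = a` and `b = flip e1 e2 {i} a` at `z = k`-th state (flexible for `b` too: `flip_left`, `flip_right`, `flip_of_notMem`);
`h ∘ run .. w = ∑ i, h i • v i` since `h = 0` at the states of type `s e1` that are not flexible (flexible for `b` and for `a`
is the same), and `run b (p x) w = run a (p x) w`. `hind`: `asm_ind` (for `i ∈ C`, `j ∉ C` not linked; `N none ⊓ N i`: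
`nj_const`). `core` gives `False`.
-/

set_option autoImplicit false

namespace Pool.Agent.H97.Dst

open Pool.Agent.H75.Bunchy Pool.Agent.H26.Bunchy Pool.Agent.H97.Bun Pool.Agent.H97.Cyc
open Pool.Agent.H97.Star
open scoped Classical

theorem asm_ind {V K E X F : Type*} [Fintype V] [Fintype E] [Fintype X] [Fintype F] [Nonempty X]
    {s t : E → K} {σ : V → K} {a : V → E → V} {μ : V → ℝ} {p : X → V} {k : K} {Γ : List K}
    (hμ : ∀ q, 0 < μ q) (ha : Typed s t σ a) (hA : Abs s σ a k Γ p)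
    (hp : Function.Injective p) (hD : DLaw (adjA s σ a) σ (Set.range p))
    (N : Option F → Submodule ℝ (V → ℝ)) (hN : ∀ J, Fam (adjA s σ a) σ (N J)) (C : Set F)
    (h1 : ∀ i ∈ C, ∀ j ∉ C, ∀ f ∈ N (some i) ⊓ N (some j), ∃ c, ∀ q, σ q = k → f q = c)
    (h2 : ∀ i ∈ C, ∀ f ∈ N none ⊓ N (some i), ∃ c, ∀ q, σ q = k → f q = c) :
    Disjoint (⨆ i ∈ C, (N (some i) ⊓ Fx s t σ a μ k Γ).map (rst p))
      ((N none ⊓ Fx s t σ a μ k Γ).map (rst p) ⊔
        ⨆ i ∈ Cᶜ, (N (some i) ⊓ Fx s t σ a μ k Γ).map (rst p)) := by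
  obtain ⟨x0⟩ := ‹Nonempty X›
  rw [Submodule.disjoint_def]
  intro u hu hu'
  have e1 : (⨆ i ∈ C, (N (some i) ⊓ Fx s t σ a μ k Γ).map (rst p)) =
      (⨆ i ∈ C, (N (some i) ⊓ Fx s t σ a μ k Γ)).map (rst p) := by
    simp only [Submodule.map_iSup]
  have e2 : ((N none ⊓ Fx s t σ a μ k Γ).map (rst p) ⊔
        ⨆ i ∈ Cᶜ, (N (some i) ⊓ Fx s t σ a μ k Γ).map (rst p)) =
      ((N none ⊓ Fx s t σ a μ k Γ) ⊔ ⨆ i ∈ Cᶜ, (N (some i) ⊓ Fx s t σ a μ k Γ)).map (rst p) := by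
    simp only [Submodule.map_iSup, Submodule.map_sup]
  rw [e1] at hu
  rw [e2] at hu'
  obtain ⟨ψ, hψ, rfl⟩ := hu
  obtain ⟨ψ', hψ', he⟩ := hu'
  have hF : ψ ∈ Fx s t σ a μ k Γ := by
    have h3 : (⨆ i ∈ C, (N (some i) ⊓ Fx s t σ a μ k Γ)) ≤ Fx s t σ a μ k Γ :=
      iSup₂_le fun i _ => inf_le_right
    exact h3 hψ
  have hF' : ψ' ∈ Fx s t σ a μ k Γ := by
    have h3 : ((N none ⊓ Fx s t σ a μ k Γ) ⊔ ⨆ i ∈ Cᶜ, (N (some i) ⊓ Fx s t σ a μ k Γ)) ≤
        Fx s t σ a μ k Γ := sup_le inf_le_right (iSup₂_le fun i _ => inf_le_right)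
    exact h3 hψ'
  have hpp : ∀ x, ψ' (p x) = ψ (p x) := fun x => congrFun he x
  have hz := mo_zero (ψ := ψ' - ψ) ha hA.typ hA.abs
    (fun q hq => by rw [map_sub, Pi.sub_apply, hF.1 q hq, hF'.1 q hq, Pi.sub_apply])
    (fun x => by rw [Pi.sub_apply, hpp, sub_self])
  have heq : ψ' = ψ := by
    funext q
    by_cases hq : σ q = k
    · have h3 := hz q hq
      rw [Pi.sub_apply] at h3
      linarith
    · rw [hF.2.1 q hq, hF'.2.1 q hq]
  rw [heq] at hψ'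
  have hm1 : ψ ∈ (Finset.univ.filter fun i => i ∈ C).sup (fun i => N (some i)) := by
    have h3 : (⨆ i ∈ C, (N (some i) ⊓ Fx s t σ a μ k Γ)) ≤
        (Finset.univ.filter fun i => i ∈ C).sup (fun i => N (some i)) :=
      iSup₂_le fun i hi => inf_le_left.trans
        (Finset.le_sup (f := fun i => N (some i)) (Finset.mem_filter.2 ⟨Finset.mem_univ i, hi⟩))
    exact h3 hψ
  have hm2 : ψ ∈ (Finset.univ.filter fun J : Option F => ∀ i ∈ C, J ≠ some i).sup N := by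
    have h3 : ((N none ⊓ Fx s t σ a μ k Γ) ⊔ ⨆ i ∈ Cᶜ, (N (some i) ⊓ Fx s t σ a μ k Γ)) ≤
        (Finset.univ.filter fun J : Option F => ∀ i ∈ C, J ≠ some i).sup N := by
      refine sup_le (inf_le_left.trans (Finset.le_sup (f := N) (Finset.mem_filter.2
        ⟨Finset.mem_univ _, fun i _ h => by simp at h⟩))) (iSup₂_le fun i hi => inf_le_left.trans
        (Finset.le_sup (f := N) (Finset.mem_filter.2 ⟨Finset.mem_univ _, fun j hj h => hi ?_⟩)))
      rw [Option.some_injective _ h]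
      exact hj
    exact h3 hψ'
  obtain ⟨c, hc⟩ := law_sup (adjA_add (s := s) (σ := σ) (a := a)) hD _ _ _ N (fun i => hN (some i)) hN (by
    intro i hi J hJ f hf
    have hi' := (Finset.mem_filter.1 hi).2
    have hJ' := (Finset.mem_filter.1 hJ).2
    cases J with
    | none =>
      obtain ⟨c, hc⟩ := h2 i hi' f ⟨hf.2, hf.1⟩
      exact ⟨c, by rintro _ ⟨x, rfl⟩; exact hc _ (hA.typ x)⟩
    | some j =>
      have hj : j ∉ C := fun hj => hJ' j hj rfl
      obtain ⟨c, hc⟩ := h1 i hi' j hj f hf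
      exact ⟨c, by rintro _ ⟨x, rfl⟩; exact hc _ (hA.typ x)⟩) hm1 hm2
  have hcx : ∀ x, ψ (p x) = c := fun x => hc _ ⟨x, rfl⟩
  have hcc : ∀ q, σ q = k → Mo s t σ a Γ (fun _ => c) q = c := fun q hq => by
    obtain ⟨y, hy⟩ := hA.abs q hq
    exact mo_eq ha (fun _ _ => rfl) ⟨_, hy⟩
  have hz2 := mo_zero (ψ := ψ - fun _ => c) ha hA.typ hA.abs
    (fun q hq => by rw [map_sub, Pi.sub_apply, hF.1 q hq, hcc q hq, Pi.sub_apply])
    (fun x => by rw [Pi.sub_apply, hcx, sub_self])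
  have hmean : mean σ μ k ψ = c := by
    rw [← mean_const (σ := σ) hμ ⟨p x0, hA.typ x0⟩ c]
    refine mean_congr fun q hq => ?_
    have h3 := hz2 q hq
    rw [Pi.sub_apply] at h3
    have h5 : ψ q = c := by linarith
    exact h5
  have hc0 : c = 0 := by rw [← hmean, hF.2.2]
  funext x
  change ψ (p x) = 0
  rw [hcx, hc0]

end Pool.Agent.H97.Dst
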