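import Pool.Agent.H97.Dst.Asm

/-!
# The total case (see `Asm.lean` for the proof)

Part of `MP_644d19_co` (multiplicity-free theorem).

`dst_total`: `Atr.exists_abs` gives `k`, `Γ`; let `p : X → V` be the inclusion (`X` as a type); `Abs` holds.
`exists_min` gives `w, e1, e2, x`, `F = {i // Flx s t σ a e1 e2 i ∧ ∃ y : X, run a (p y) w = i}` (nonempty),
`N none = NJ a`, `N (some i) = NJ (flip e1 e2 {i} a)`: members (`fam_NJ`, `adj_flip`). `v i x = if run a (p x) w = i then 1
else 0` (linearly independent: evaluate at some `x` with `run a (p x) w = i`). `ℓ` from `exists_ell` (positive on `v i`);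
`Z J = (N J ⊓ Fx).map (rst p)`; `ℓ u = 0` for `u ∈ Z J` (mean `0`).
`L i j := ¬ ∀ f ∈ N i ⊓ N j, ∃ c, ∀ q, σ q = k → f q = c`.
`hL` (`i ≠ j`): `link` and `ax_le` (for `flip i`, `flip j`: `Abs.flip`, `mo_flip`, so `Fx` and `Mo` are the same). `hcov`:
`cover` for `b = a` and `b = flip e1 e2 {i} a` at the state `z = k` of `F` (flexible for `b` too: `flip_left`, `flip_right`,
`flip_of_notMem`); `h ∘ run .. w = ∑ i, h i • v i` since `h = 0` at the states of type `s e1` that are not flexible (flexible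
for `b` and for `a` is the same), and `run b (p x) w = run a (p x) w`. `hind`: `asm_ind` (for `i ∈ C`, `j ∉ C` not
linked, by the closure of `C` under `L`; `N none ⊓ N i`: `nj_const`). `core` gives `False`. Stationary weights of the
flips: `stat_flip` (`hpr`). (Compare `star_total` in `Star/StarC.lean`.)
-/

set_option autoImplicit false

namespace Pool.Agent.H97.Dst

open Pool.Agent.H75.Bunchy Pool.Agent.H26.Bunchy Pool.Agent.H97.Bun Pool.Agent.H97.Cyc
open Pool.Agent.H97.Star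
open scoped Classical

/-- an exchanged automaton separates the letters where the given one does -/
private lemma asmB_ne {V E : Type*} {a : V → E → V} {e1 e2 : E} (δ : Set V) {i : V} :
    flip e1 e2 δ a i e1 = flip e1 e2 δ a i e2 ↔ a i e1 = a i e2 := by
  by_cases h : i ∈ δ
  · rw [flip_of_mem h, flip_of_mem h, Equiv.swap_apply_left, Equiv.swap_apply_right]
    exact eq_comm
  · rw [flip_of_notMem h, flip_of_notMem h]

private lemma asmB_fx {V K E : Type*} [Fintype V] [Fintype E] {s t : E → K} {σ : V → K}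
    {a : V → E → V} {e1 e2 : E} (hs : s e1 = s e2) (ht : t e1 = t e2) (δ : Set V) (μ : V → ℝ)
    (k : K) (Γ : List K) : Fx s t σ (flip e1 e2 δ a) μ k Γ = Fx s t σ a μ k Γ := by
  ext f
  show ((∀ q, σ q = k → Mo s t σ (flip e1 e2 δ a) Γ f q = f q) ∧ (∀ q, σ q ≠ k → f q = 0) ∧
    mean σ μ k f = 0) ↔ ((∀ q, σ q = k → Mo s t σ a Γ f q = f q) ∧ (∀ q, σ q ≠ k → f q = 0) ∧
    mean σ μ k f = 0)
  rw [mo_flip hs ht]

theorem dst_total {V K E : Type} [Fintype V] [Fintype E] {s t : E → K} {σ : V → K}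
    {a : V → E → V} {μ : V → ℝ} {pr : E → ℝ} (ha : Typed s t σ a) (hcn : Conn s σ a)
    (h : Stat s σ a pr μ) (hpr : ∀ e f, s e = s f → pr e = pr f)
    (hsu : ∀ e, ∃ p, s e = σ p) {X : Set V} (hX : Atr (Step s σ a) σ X)
    (hD : DLaw (adjA s σ a) σ X) (hno : NoStable s t σ a)
    (hfl : ∀ e1 e2 i, Flx s t σ a e1 e2 i → NoStable s t σ (flip e1 e2 {i} a) ∧
      Total s σ a (a i e1) (a i e2) ∧ Total s σ (flip e1 e2 {i} a) (a i e2) (a i e1))
    (hex : ∃ e1 e2 i, Flx s t σ a e1 e2 i) : False := by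
  obtain ⟨k, Γ, hk, hΓ1, hΓ2⟩ := Atr.exists_abs (rr_step ha) hX
  have hμ := h.mu_pos
  let p : X → V := Subtype.val
  have : Nonempty X := hX.ne.to_subtype
  have : Fintype X := Fintype.ofFinite X
  have hA : Abs s σ a k Γ p := by
    refine ⟨fun x => hk x.1 x.2, fun x t => ?_, fun q hq => ?_⟩
    · exact hΓ1 x.1 x.2 t
    · obtain ⟨y, hy, h1⟩ := hΓ2 q hq
      exact ⟨⟨y, hy⟩, h1⟩
  have hp : Function.Injective p := Subtype.val_injective
  have hrange : Set.range p = X := Subtype.range_coe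
  obtain ⟨w, e1, e2, x, hw, hf, hflx, hrun⟩ := exists_min ha hcn hA.typ hex
  obtain ⟨hs, ht, hsx, hne⟩ := id hflx
  let ζ : X → V := fun y => run a (p y) w
  have hζσ : ∀ y, σ (ζ y) = s e1 := by
    intro y
    show σ (run a (p y) w) = s e1
    rw [ha.run (p y) w (by rw [hA.typ]; exact hw), hA.typ, hf]
  let F : Type := {i : V // Flx s t σ a e1 e2 i ∧ ∃ y, ζ y = i}
  have : Nonempty F := ⟨⟨ζ x, hflx, x, rfl⟩⟩
  have : Fintype F := Fintype.ofFinite F
  let J : Option F → V → E → V := fun o => o.elim a fun i => flip e1 e2 {i.1} a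
  have hJT : ∀ o, Typed s t σ (J o) := by
    rintro (_ | i)
    · exact ha
    · exact ha.flip hs ht _
  have hJC : ∀ o, Conn s σ (J o) := by
    rintro (_ | i)
    · exact hcn
    · exact hcn.flip hs _
  have hJS : ∀ o, Stat s σ (J o) pr μ := by
    rintro (_ | i)
    · exact h
    · exact stat_flip h hs (hpr _ _ hs) _
  have hJN : ∀ o, NoStable s t σ (J o) := by
    rintro (_ | i)
    · exact hno
    · exact (hfl e1 e2 i.1 i.2.1).1
  have hJA : ∀ o, Abs s σ (J o) k Γ p := by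
    rintro (_ | i)
    · exact hA
    · exact hA.flip hs _
  have hJR : ∀ o y, run (J o) (p y) w = ζ y := by
    rintro (_ | i) y
    · rfl
    · exact hrun e1 e2 hs ht _ y
  have hJE : ∀ o i, J o i e1 = J o i e2 ↔ a i e1 = a i e2 := by
    rintro (_ | j) i
    · exact Iff.rfl
    · exact asmB_ne _
  have hJF : ∀ o i, Flx s t σ (J o) e1 e2 i ↔ Flx s t σ a e1 e2 i := by
    intro o i
    unfold Flx
    rw [ne_eq, hJE o i]
  have hJX : ∀ o, Fx s t σ (J o) μ k Γ = Fx s t σ a μ k Γ := by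
    rintro (_ | i)
    · rfl
    · exact asmB_fx hs ht _ μ k Γ
  have hJD : ∀ o, adjA s σ (J o) = adjA s σ a := by
    rintro (_ | i)
    · rfl
    · exact adj_flip hs _
  let N : Option F → Submodule ℝ (V → ℝ) := fun o => NJ s t σ (J o) μ
  have hN : ∀ o, Fam (adjA s σ a) σ (N o) := by
    intro o
    have h1 := fam_NJ (μ := μ) hμ (hJT o)
    rw [hJD o] at h1
    exact h1
  let Z : Option F → Submodule ℝ (X → ℝ) := fun o => (N o ⊓ Fx s t σ a μ k Γ).map (rst p)
  have hAZ : ∀ o, Ax s t σ (J o) μ k Γ p ≤ Z o := by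
    intro o
    have h1 := ax_le (μ := μ) (hJT o) (hJA o)
    rw [hJX o] at h1
    exact h1
  let v : F → X → ℝ := fun i y => if ζ y = i.1 then 1 else 0
  have hv : LinearIndependent ℝ v := by
    rw [Fintype.linearIndependent_iff]
    intro g hg i
    obtain ⟨y, hy⟩ := i.2.2
    have h1 := congrFun hg y
    rw [Finset.sum_apply, Finset.sum_eq_single i] at h1
    · simpa [v, hy] using h1
    · intro j _ hj
      have h2 : ζ y ≠ j.1 := fun h0 => hj (Subtype.ext (h0.symm.trans hy))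
      simp [v, h2]
    · intro h0
      exact absurd (Finset.mem_univ _) h0
  obtain ⟨ℓ, hℓ1, hℓ2⟩ := exists_ell hμ ha hA hp
  refine core v hv ℓ ?_ Z ?_
    (fun i j => ¬ ∀ f ∈ N (some i) ⊓ N (some j), ∃ c, ∀ q, σ q = k → f q = c) ?_ ?_ ?_
  · intro i
    obtain ⟨y, hy⟩ := i.2.2
    refine hℓ1 _ (fun x => ?_) ⟨y, ?_⟩
    · show (0 : ℝ) ≤ if ζ x = i.1 then 1 else 0
      split_ifs <;> norm_num
    · show (0 : ℝ) < if ζ y = i.1 then 1 else 0
      rw [if_pos hy]
      exact one_pos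
  · rintro o u ⟨ψ, hψ, rfl⟩
    have h1 : (∀ q, σ q = k → Mo s t σ a Γ ψ q = ψ q) ∧ (∀ q, σ q ≠ k → ψ q = 0) ∧
      mean σ μ k ψ = 0 := hψ.2
    have h2 := hℓ2 ψ h1.1
    rw [h1.2.2] at h2
    exact h2
  · intro i j hij hL
    have hij' : i.1 ≠ j.1 := fun h0 => hij (Subtype.ext h0)
    have hL' : ∃ f ∈ N (some i) ⊓ N (some j), ¬ ∃ c, ∀ q, σ q = k → f q = c := by
      by_contra hcon
      push Not at hcon
      refine hL fun f hf => ?_
      obtain ⟨c, hc⟩ := hcon f hf
      exact ⟨c, hc⟩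
    obtain ⟨f, hfN, hfc⟩ := hL'
    obtain ⟨α, β, hαβ, h1⟩ := link (μ := μ) hμ ha hs ht hA hw
      (fun δ y => hrun e1 e2 hs ht δ y) hij' i.2.1.2.2.1 j.2.1.2.2.1 hf
      (hfl e1 e2 i.1 i.2.1).2.2 (f := f) hfN.1 hfN.2 hfc
    refine ⟨α, β, hαβ, ?_⟩
    have h2 := sup_le_sup (hAZ (some i)) (hAZ (some j)) h1
    have h3 : α • v i + β • v j = fun x => (if run a (p x) w = i.1 then α else 0) +
        (if run a (p x) w = j.1 then β else 0) := by
      funext y
      show α * (if ζ y = i.1 then (1 : ℝ) else 0) + β * (if ζ y = j.1 then (1 : ℝ) else 0) = _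
      rw [mul_ite, mul_ite, mul_one, mul_one, mul_zero, mul_zero]
    rw [h3]
    exact h2
  · intro o i
    obtain ⟨g, hg1, hg2, hg3⟩ := cover (hJT o) (hJC o) (hJS o) hs ht hsu (hJA o) (hJN o) hw hf
      ((hJF o i.1).2 i.2.1)
    refine ⟨fun j => g j.1, ?_, hg2⟩
    have h1 := hAZ o hg3
    have h2 : (∑ j : F, g j.1 • v j) = fun x => g (run (J o) (p x) w) := by
      funext y
      rw [Finset.sum_apply, hJR o y]
      by_cases hy : Flx s t σ a e1 e2 (ζ y)
      · rw [Finset.sum_eq_single (⟨ζ y, hy, y, rfl⟩ : F)]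
        · simp [v]
        · intro j _ hj
          have h2 : ζ y ≠ j.1 := fun h0 => hj (Subtype.ext h0.symm)
          simp [v, h2]
        · intro h0
          exact absurd (Finset.mem_univ _) h0
      · rw [hg1 (ζ y) (hζσ y) (fun h0 => hy ((hJF o _).1 h0))]
        refine Finset.sum_eq_zero fun j _ => ?_
        have h2 : ζ y ≠ j.1 := fun h0 => hy (h0 ▸ j.2.1)
        simp [v, h2]
    rw [h2]
    exact h1
  · intro C hC
    refine asm_ind hμ ha hA hp (by rw [hrange]; exact hD) N hN C ?_ ?_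
    · intro i hi j hj
      by_contra hL
      exact hj ((hC i j hL).1 hi)
    · intro i _ f hfN
      exact nj_const hμ hs ht ha i.2.1.2.2.1 (hfl e1 e2 i.1 i.2.1).2.1 hfN.1 hfN.2 k

end Pool.Agent.H97.Dst
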