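import Pool.Agent.H97.Dst.Defs
import Pool.Agent.H97.Star.Ref

/-!
# Attractors

Part of `MP_644d19_co` (multiplicity-free theorem).

* `Atr.exists_abs`: as `Orb.exists_abs` (`Star/Orb.lean`), with the identity only: induction on a finite set
  `Q` of vertices of the type `k`: some `Γ` has `∀ x ∈ X, ∀ t, Al r τ x Γ t ↔ t = x` and every `q ∈ Q`
  reaches some `y ∈ X` over `Γ`. For `insert q₀ Q`: from `q₀` a path over `Γ` leads to some `q₁`
  (`al_exists`, from a vertex of `X`), of type `k` (`al_type`); take `β` for `q₁` (`absorb`) and `Γ ++ β`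
  (`al_append`).
* `Atr.refine`: fix `x₀ ∈ X`, `X' = {x ∈ X | τ' x = τ' x₀}`. Let `τ' q = τ' x₀`; then `τ q = τ x₀`, let `β`,
  `y` be given by `absorb`, and `β'` the `τ'`-list of the path from `q` to `y` (`al_lift`). For every
  `x ∈ X'` (`τ' x = τ' q`) there is a path over `β'` from `x` to some `t'` with `τ' t' = τ' y`
  (`al_transfer`), by `al_coarse` it is a path over `β`, so `t' = x`, and `τ' y = τ' x = τ' x₀`: `y ∈ X'`. So
  `Al r τ' x β' t ↔ t = x` for `x ∈ X'` (`(→)` `al_coarse`).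
* `Atr.image`: `Al rW τW (f q) β w ↔ ∃ t, Al r τ q β t ∧ f t = w` (induction on `β`; see the proof of
  `Orb.image` in `Star/Ref.lean`).
* `fam_sup`, `fam_inf`: closure properties. `Fam.coarse`: `1_κ f = ∑ κ' with g κ' = κ, 1_κ' f` (finite sum over
  the types `κ'` in the range of `τ'`, or: `Finset.univ.filter` over the vertices' types). `DLaw.refine`.
-/

set_option autoImplicit false

namespace Pool.Agent.H97.Dst

open Pool.Agent.H97.Star
open scoped Classical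

private lemma atr_aux {V K : Type*} {r : V → V → Prop} {τ : V → K} {X : Set V}
    (hr : RR r τ) (hX : Atr r τ X) {x₀ : V} (hx₀ : x₀ ∈ X) (Q : Finset V) :
    (∀ q ∈ Q, τ q = τ x₀) → ∃ Γ, (∀ x ∈ X, ∀ t, Al r τ x Γ t ↔ t = x) ∧
      ∀ q ∈ Q, ∃ y ∈ X, Al r τ q Γ y := by
  induction Q using Finset.induction_on with
  | empty =>
    intro _
    exact ⟨[], fun x _ t => ⟨fun h => (show x = t from h).symm, fun h => (show x = t from h.symm)⟩,
      fun q hq => absurd hq (Finset.notMem_empty q)⟩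
  | insert q₀ Q _ ih =>
    intro hQ
    obtain ⟨Γ, hg, hΓ⟩ := ih fun q hq => hQ q (Finset.mem_insert_of_mem hq)
    have h0 : Al r τ x₀ Γ x₀ := (hg x₀ hx₀ _).2 rfl
    have hq₀ : τ q₀ = τ x₀ := hQ q₀ (Finset.mem_insert_self _ _)
    obtain ⟨q₁, h1⟩ := al_exists hr h0 hq₀.symm
    have h2 : τ q₁ = τ x₀ := al_type h1 h0 hq₀
    obtain ⟨β, h3, y, hy, h4⟩ := hX.absorb q₁ x₀ hx₀ h2
    refine ⟨Γ ++ β, fun x hx t => ?_, fun q hq => ?_⟩
    · rw [al_append]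
      constructor
      · rintro ⟨m, hm1, hm2⟩
        rw [hg x hx] at hm1
        rw [hm1, h3 x hx] at hm2
        exact hm2
      · intro ht
        exact ⟨x, (hg x hx _).2 rfl, (h3 x hx t).2 ht⟩
    · rcases Finset.mem_insert.1 hq with rfl | hq
      · exact ⟨y, hy, (al_append _ _ _ _).2 ⟨q₁, h1, h4⟩⟩
      · obtain ⟨y', hy', h5⟩ := hΓ q hq
        exact ⟨y', hy', (al_append _ _ _ _).2 ⟨y', h5, (h3 y' hy' _).2 rfl⟩⟩

theorem Atr.exists_abs {V K : Type*} [Finite V] {r : V → V → Prop} {τ : V → K} {X : Set V}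
    (hr : RR r τ) (hX : Atr r τ X) :
    ∃ k Γ, (∀ x ∈ X, τ x = k) ∧ (∀ x ∈ X, ∀ t, Al r τ x Γ t ↔ t = x) ∧
      ∀ q, τ q = k → ∃ y ∈ X, Al r τ q Γ y := by
  have : Fintype V := Fintype.ofFinite V
  obtain ⟨x₀, hx₀⟩ := hX.ne
  obtain ⟨Γ, hg, hΓ⟩ := atr_aux hr hX hx₀ (Finset.univ.filter fun q => τ q = τ x₀)
    fun q hq => (Finset.mem_filter.1 hq).2
  exact ⟨τ x₀, Γ, fun x hx => hX.typ x hx x₀ hx₀, hg,
    fun q hq => hΓ q (Finset.mem_filter.2 ⟨Finset.mem_univ q, hq⟩)⟩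

theorem Atr.refine {V K K' : Type*} {r : V → V → Prop} {τ : V → K} {τ' : V → K'} {X : Set V}
    {g : K' → K} (hg : ∀ q, g (τ' q) = τ q) (hr : RR r τ') (hX : Atr r τ X) :
    ∃ X' ⊆ X, Atr r τ' X' := by
  obtain ⟨x₀, hx₀⟩ := hX.ne
  refine ⟨{x | x ∈ X ∧ τ' x = τ' x₀}, fun x hx => hx.1, ⟨⟨x₀, hx₀, rfl⟩, ?_, ?_⟩⟩
  · intro x hx y hy
    exact hx.2.trans hy.2.symm
  · intro q x hx hq
    obtain ⟨β, hβ, y, hy, h1⟩ := hX.absorb q x hx.1 (by rw [← hg, ← hg, hq])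
    obtain ⟨β', e, h2⟩ := al_lift hg h1
    have key : ∀ z, z ∈ X → τ' z = τ' x₀ → Al r τ' z β' z ∧ τ' z = τ' y := by
      intro z hz hz'
      obtain ⟨t', h3, h4⟩ := al_transfer hr h2 (show τ' q = τ' z by rw [hq, hx.2, hz'])
      have h5 := al_coarse hg h3
      rw [e, hβ z hz] at h5
      rw [h5] at h3 h4
      exact ⟨h3, h4⟩
    refine ⟨β', ?_, y, ⟨hy, ?_⟩, h2⟩
    · intro z hz t
      constructor
      · intro h
        have h5 := al_coarse hg h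
        rw [e, hβ z hz.1] at h5
        exact h5
      · rintro rfl
        exact (key t hz.1 hz.2).1
    · rw [← (key x hx.1 hx.2).2, hx.2]

theorem Atr.image {V W K : Type*} {r : V → V → Prop} {τ : V → K} {rW : W → W → Prop}
    {τW : W → K} {X : Set V} (f : V → W) (hτ : ∀ q, τW (f q) = τ q)
    (hf : Function.Surjective f) (him : ∀ q q', r q q' → rW (f q) (f q'))
    (hlift : ∀ q w', rW (f q) w' → ∃ q', r q q' ∧ f q' = w') (hX : Atr r τ X) :
    Atr rW τW (f '' X) := by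
  have key : ∀ (β : List K) (q : V) (w : W), Al rW τW (f q) β w ↔ ∃ t, Al r τ q β t ∧ f t = w := by
    intro β
    induction β with
    | nil =>
      intro q w
      exact ⟨fun h => ⟨q, rfl, h⟩, fun ⟨t, h1, h2⟩ => (congrArg f (show q = t from h1)).trans h2⟩
    | cons κ β ih =>
      intro q w
      constructor
      · rintro ⟨w', ⟨h1, h2⟩, h3⟩
        obtain ⟨q', h4, h5⟩ := hlift q w' h1
        rw [← h5, ih q' w] at h3
        obtain ⟨t, h6, h7⟩ := h3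
        exact ⟨t, ⟨q', ⟨h4, by rw [← hτ, h5, h2]⟩, h6⟩, h7⟩
      · rintro ⟨t, ⟨q', ⟨h1, h2⟩, h3⟩, h4⟩
        exact ⟨f q', ⟨him q q' h1, by rw [hτ, h2]⟩, (ih q' w).2 ⟨t, h3, h4⟩⟩
  refine ⟨hX.ne.image f, ?_, ?_⟩
  · rintro _ ⟨x, hx, rfl⟩ _ ⟨y, hy, rfl⟩
    rw [hτ, hτ]
    exact hX.typ x hx y hy
  · rintro w _ ⟨x, hx, rfl⟩ hw
    obtain ⟨q, rfl⟩ := hf w
    rw [hτ, hτ] at hw
    obtain ⟨β, h1, y, hy, h2⟩ := hX.absorb q x hx hw
    refine ⟨β, ?_, f y, ⟨y, hy, rfl⟩, (key β q _).2 ⟨y, h2, rfl⟩⟩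
    rintro _ ⟨z, hz, rfl⟩ t
    rw [key β z t]
    constructor
    · rintro ⟨t', h3, h4⟩
      rw [h1 z hz] at h3
      rw [← h4, h3]
    · intro h
      exact ⟨z, (h1 z hz z).2 rfl, h.symm⟩

end Pool.Agent.H97.Dst
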