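import Mathlib

/-!
# The distributive law for real invariant subspaces of a complex cyclic operator

Part of `MP_644d19_co` (multiplicity-free theorem). Pure linear algebra.

* `cyclic_lawK`: the proof of `cyclic_two` in `Loc.lean` (or `cyclic_law` in `Cycl.lean`), word by word, for a field `k`
  instead of `ℝ`. Let `v = v₁ + v₂ ∈ S₃`, `v_i ∈ S_i`, `v_i = g_i(T) u`, `d = gcd g₁ g₂`, `g_i = d b_i`, `x b₁ + y b₂ = 1`. Then
  `v = (x b₁)(T) v + (y b₂)(T) v`, and `(x b₁)(T) v = (x (b₁ + b₂))(T) v₁`. Copy it.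
* `real_law`: `T` is a complex operator on `V → ℂ` that acts on real and imaginary parts as the real
  operator `A`, with the cyclic vector `u`. For a real subspace `S` let `S_ℂ` (`cx S`) be the complex subspace of all `F`
  with real and imaginary part in `S`; it is invariant under `T` if `S` is invariant under `A`. For `f = f₁ + f₂ ∈ S₃`,
  `f_i ∈ S_i`, apply `cyclic_lawK` to the functions `(f_i : V → ℂ)` (imaginary part `0`) and the subspaces `cx S_i`: `f` is a sum of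
  an element of `cx S₁ ⊓ cx S₃` and an element of `cx S₂ ⊓ cx S₃`. Take real parts.
-/

set_option autoImplicit false

namespace Pool.Agent.H97.Dst

open scoped Polynomial

private theorem claw_mem {k : Type*} [Field k] {M : Type*} [AddCommGroup M] [Module k M]
    (T : Module.End k M)
    (S : Submodule k M) (h : ∀ v ∈ S, T v ∈ S) (g : k[X]) :
    ∀ v ∈ S, (Polynomial.aeval T g) v ∈ S := by
  induction g using Polynomial.induction_on with
  | C a =>
    intro v hv
    rw [Polynomial.aeval_C, Module.algebraMap_end_apply]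
    exact S.smul_mem a hv
  | add p q hp hq =>
    intro v hv
    rw [map_add, LinearMap.add_apply]
    exact S.add_mem (hp v hv) (hq v hv)
  | monomial n a ih =>
    intro v hv
    rw [pow_succ', mul_left_comm, Polynomial.aeval_mul, Polynomial.aeval_X, Module.End.mul_apply]
    exact h _ (ih v hv)

private theorem claw_two {k : Type*} [Field k] {M : Type*} [AddCommGroup M] [Module k M]
    (T : Module.End k M) (u : M)
    (S₁ S₂ S₃ : Submodule k M)
    (h₁ : ∀ v ∈ S₁, T v ∈ S₁) (h₂ : ∀ v ∈ S₂, T v ∈ S₂) (h₃ : ∀ v ∈ S₃, T v ∈ S₃)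
    {v1 v2 : M} (hv1 : v1 ∈ S₁) (hv2 : v2 ∈ S₂) (hv3 : v1 + v2 ∈ S₃) {g1 g2 : k[X]}
    (hg1 : v1 = (Polynomial.aeval T g1) u) (hg2 : v2 = (Polynomial.aeval T g2) u) :
    v1 + v2 ∈ (S₁ ⊓ S₃) ⊔ (S₂ ⊓ S₃) := by
  classical
  by_cases h0 : EuclideanDomain.gcd g1 g2 = 0
  · rw [EuclideanDomain.gcd_eq_zero_iff] at h0
    rw [hg1, hg2, h0.1, h0.2, map_zero, LinearMap.zero_apply, add_zero]
    exact Submodule.zero_mem _
  · obtain ⟨b1, hb1⟩ := EuclideanDomain.gcd_dvd_left g1 g2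
    obtain ⟨b2, hb2⟩ := EuclideanDomain.gcd_dvd_right g1 g2
    have hab := EuclideanDomain.gcd_eq_gcd_ab g1 g2
    obtain ⟨x, hx⟩ : ∃ x, x = EuclideanDomain.gcdA g1 g2 := ⟨_, rfl⟩
    obtain ⟨y, hy⟩ : ∃ y, y = EuclideanDomain.gcdB g1 g2 := ⟨_, rfl⟩
    obtain ⟨d, hd⟩ : ∃ d, d = EuclideanDomain.gcd g1 g2 := ⟨_, rfl⟩
    rw [← hx, ← hy, ← hd] at hab
    rw [← hd] at hb1 hb2 h0
    have h1 : x * b1 + y * b2 = 1 := by
      apply mul_left_cancel₀ h0
      calc d * (x * b1 + y * b2) = (d * b1) * x + (d * b2) * y := by ring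
        _ = g1 * x + g2 * y := by rw [← hb1, ← hb2]
        _ = d * 1 := by rw [← hab, mul_one]
    have hv12 : v1 + v2 = (Polynomial.aeval T (g1 + g2)) u := by
      rw [map_add, LinearMap.add_apply, ← hg1, ← hg2]
    have hsplit : v1 + v2 = (Polynomial.aeval T (x * b1)) (v1 + v2) +
        (Polynomial.aeval T (y * b2)) (v1 + v2) := by
      rw [← LinearMap.add_apply, ← map_add, h1, map_one, Module.End.one_apply]
    have e1 : (Polynomial.aeval T (x * b1)) (v1 + v2) =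
        (Polynomial.aeval T (x * (b1 + b2))) v1 := by
      rw [hv12, hg1, ← Module.End.mul_apply, ← Module.End.mul_apply, ← Polynomial.aeval_mul,
        ← Polynomial.aeval_mul]
      congr 2
      calc x * b1 * (g1 + g2) = x * b1 * (d * b1 + d * b2) := by rw [← hb1, ← hb2]
        _ = x * (b1 + b2) * (d * b1) := by ring
        _ = x * (b1 + b2) * g1 := by rw [← hb1]
    have e2 : (Polynomial.aeval T (y * b2)) (v1 + v2) =
        (Polynomial.aeval T (y * (b1 + b2))) v2 := by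
      rw [hv12, hg2, ← Module.End.mul_apply, ← Module.End.mul_apply, ← Polynomial.aeval_mul,
        ← Polynomial.aeval_mul]
      congr 2
      calc y * b2 * (g1 + g2) = y * b2 * (d * b1 + d * b2) := by rw [← hb1, ← hb2]
        _ = y * (b1 + b2) * (d * b2) := by ring
        _ = y * (b1 + b2) * g2 := by rw [← hb2]
    rw [hsplit]
    refine Submodule.add_mem_sup ⟨?_, ?_⟩ ⟨?_, ?_⟩
    · rw [e1]
      exact claw_mem T S₁ h₁ _ v1 hv1
    · exact claw_mem T S₃ h₃ _ _ hv3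
    · rw [e2]
      exact claw_mem T S₂ h₂ _ v2 hv2
    · exact claw_mem T S₃ h₃ _ _ hv3

theorem cyclic_lawK {k : Type*} [Field k] {M : Type*} [AddCommGroup M] [Module k M]
    (T : Module.End k M) (u : M)
    (hu : ∀ v, ∃ g : k[X], v = (Polynomial.aeval T g) u) (S₁ S₂ S₃ : Submodule k M)
    (h₁ : ∀ v ∈ S₁, T v ∈ S₁) (h₂ : ∀ v ∈ S₂, T v ∈ S₂) (h₃ : ∀ v ∈ S₃, T v ∈ S₃) :
    (S₁ ⊔ S₂) ⊓ S₃ ≤ (S₁ ⊓ S₃) ⊔ (S₂ ⊓ S₃) := by
  rintro v ⟨hv, hv3⟩
  obtain ⟨v1, hv1, v2, hv2, rfl⟩ := Submodule.mem_sup.1 hv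
  obtain ⟨g1, hg1⟩ := hu v1
  obtain ⟨g2, hg2⟩ := hu v2
  exact claw_two T u S₁ S₂ S₃ h₁ h₂ h₃ hv1 hv2 hv3 hg1 hg2

/-- the complexification of a real subspace -/
private def claw_cx {V : Type*} (S : Submodule ℝ (V → ℝ)) : Submodule ℂ (V → ℂ) where
  carrier := {F | (fun q => (F q).re) ∈ S ∧ (fun q => (F q).im) ∈ S}
  add_mem' := by
    rintro F G ⟨h1, h2⟩ ⟨h3, h4⟩
    refine ⟨?_, ?_⟩
    · have e : (fun q => ((F + G) q).re) = (fun q => (F q).re) + (fun q => (G q).re) := by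
        funext q
        simp only [Pi.add_apply, Complex.add_re]
      rw [e]
      exact S.add_mem h1 h3
    · have e : (fun q => ((F + G) q).im) = (fun q => (F q).im) + (fun q => (G q).im) := by
        funext q
        simp only [Pi.add_apply, Complex.add_im]
      rw [e]
      exact S.add_mem h2 h4
  zero_mem' := by
    refine ⟨?_, ?_⟩
    · exact S.zero_mem
    · exact S.zero_mem
  smul_mem' := by
    rintro c F ⟨h1, h2⟩
    refine ⟨?_, ?_⟩
    · have e : (fun q => ((c • F) q).re) =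
          c.re • (fun q => (F q).re) - c.im • (fun q => (F q).im) := by
        funext q
        simp only [Pi.smul_apply, Pi.sub_apply, smul_eq_mul, Complex.mul_re]
      rw [e]
      exact S.sub_mem (S.smul_mem _ h1) (S.smul_mem _ h2)
    · have e : (fun q => ((c • F) q).im) =
          c.re • (fun q => (F q).im) + c.im • (fun q => (F q).re) := by
        funext q
        simp only [Pi.smul_apply, Pi.add_apply, smul_eq_mul, Complex.mul_im]
      rw [e]
      exact S.add_mem (S.smul_mem _ h2) (S.smul_mem _ h1)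

private theorem claw_inv {V : Type*} (T : Module.End ℂ (V → ℂ)) (A : (V → ℝ) → V → ℝ)
    (hre : ∀ F : V → ℂ, (fun q => (T F q).re) = A (fun q => (F q).re))
    (him : ∀ F : V → ℂ, (fun q => (T F q).im) = A (fun q => (F q).im))
    (S : Submodule ℝ (V → ℝ)) (h : ∀ f ∈ S, A f ∈ S) :
    ∀ F ∈ claw_cx S, T F ∈ claw_cx S := by
  rintro F ⟨h1, h2⟩
  refine ⟨?_, ?_⟩
  · rw [hre F]
    exact h _ h1
  · rw [him F]
    exact h _ h2

private theorem claw_real {V : Type*} (S : Submodule ℝ (V → ℝ)) (f : V → ℝ) (h : f ∈ S) :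
    (fun q => (f q : ℂ)) ∈ claw_cx S := by
  refine ⟨?_, ?_⟩
  · have e : (fun q => ((f q : ℂ)).re) = f := by
      funext q
      exact Complex.ofReal_re _
    change (fun q => ((f q : ℂ)).re) ∈ S
    rw [e]
    exact h
  · have e : (fun q => ((f q : ℂ)).im) = 0 := by
      funext q
      exact Complex.ofReal_im _
    change (fun q => ((f q : ℂ)).im) ∈ S
    rw [e]
    exact S.zero_mem

theorem real_law {V : Type*} (T : Module.End ℂ (V → ℂ)) (A : (V → ℝ) → V → ℝ)
    (hre : ∀ F : V → ℂ, (fun q => (T F q).re) = A (fun q => (F q).re))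
    (him : ∀ F : V → ℂ, (fun q => (T F q).im) = A (fun q => (F q).im)) (u : V → ℂ)
    (hu : ∀ v, ∃ g : ℂ[X], v = (Polynomial.aeval T g) u) (S₁ S₂ S₃ : Submodule ℝ (V → ℝ))
    (h₁ : ∀ f ∈ S₁, A f ∈ S₁) (h₂ : ∀ f ∈ S₂, A f ∈ S₂) (h₃ : ∀ f ∈ S₃, A f ∈ S₃) :
    (S₁ ⊔ S₂) ⊓ S₃ ≤ (S₁ ⊓ S₃) ⊔ (S₂ ⊓ S₃) := by
  rintro f ⟨hf, hf3⟩
  obtain ⟨f1, hf1, f2, hf2, rfl⟩ := Submodule.mem_sup.1 hf
  have key := cyclic_lawK T u hu (claw_cx S₁) (claw_cx S₂) (claw_cx S₃)
    (claw_inv T A hre him S₁ h₁) (claw_inv T A hre him S₂ h₂) (claw_inv T A hre him S₃ h₃)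
  have hmem : (fun q => ((f1 + f2) q : ℂ)) ∈ (claw_cx S₁ ⊔ claw_cx S₂) ⊓ claw_cx S₃ := by
    refine ⟨?_, claw_real S₃ _ hf3⟩
    have e : (fun q => (((f1 + f2) q : ℝ) : ℂ)) =
        (fun q => (f1 q : ℂ)) + (fun q => (f2 q : ℂ)) := by
      funext q
      simp only [Pi.add_apply, Complex.ofReal_add]
    rw [e]
    exact Submodule.add_mem_sup (claw_real S₁ f1 hf1) (claw_real S₂ f2 hf2)
  obtain ⟨F1, hF1, F2, hF2, hsum⟩ := Submodule.mem_sup.1 (key hmem)
  have e : f1 + f2 = (fun q => (F1 q).re) + (fun q => (F2 q).re) := by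
    funext q
    have h := congrArg (fun F : V → ℂ => (F q).re) hsum
    simp only [Pi.add_apply, Complex.add_re, Complex.ofReal_re] at h
    simp only [Pi.add_apply]
    exact h.symm
  rw [e]
  exact Submodule.add_mem_sup ⟨hF1.1.1, hF1.2.1⟩ ⟨hF2.1.1, hF2.2.1⟩

end Pool.Agent.H97.Dst
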