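import Pool.Agent.H97.Dst.Law

/-!
# Cyclic operators

Part of `MP_644d19_co` (multiplicity-free theorem).

* `cyclic_law`: `T` is a linear operator with a cyclic vector `u`: every vector is `aeval T g u` for some
  polynomial `g`. For subspaces `S₁, S₂, S₃` invariant under `T`: `(S₁ ⊔ S₂) ⊓ S₃ ≤ (S₁ ⊓ S₃) ⊔ (S₂ ⊓ S₃)`. Let
  `v = v₁ + v₂ ∈ S₃`, `v_i ∈ S_i`, `v_i = g_i(T) u`. Let `d = gcd g₁ g₂` (if `g₁ = g₂ = 0` then `v = 0`), `g_i = d * b_i`,
  `x * b₁ + y * b₂ = 1` (`EuclideanDomain.gcd_eq_gcd_ab`, cancel `d ≠ 0`; or `IsCoprime`). Let `g = g₁ + g₂ = d * (b₁ + b₂)`,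
  `m = b₁ + b₂`. Then `v = g(T) u = (x b₁ g)(T) u + (y b₂ g)(T) u`. The first vector is `(x b₁)(T) v ∈ S₃` and
  `x b₁ g = x m g₁`, so it is `(x m)(T) v₁ ∈ S₁`; the same for the second one.
  (`aeval_mem`: a `T`-invariant subspace is invariant under `aeval T g`: `Polynomial.induction_on` or
  `Polynomial.aeval_eq_sum_range`, `T ^ n`.)
* `wA`: the weighted adjacency operator `T f q = ∑ κ, ∑ κ', c κ κ' * 1_κ(q) * A (1_κ' f) q`, for `c : K → K → ℝ` of finite
  support types; it preserves the members of the family. `dlaw_of_cyclic`: if the weighted adjacency operator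
  has a cyclic vector, `DLaw A τ X` holds for every `X`. `T` is given with
  `hT : ∀ S, Fam A τ S → ∀ f ∈ S, T f ∈ S`.
-/

set_option autoImplicit false

namespace Pool.Agent.H97.Dst

open scoped Classical Polynomial

private theorem cycl_mem {M : Type*} [AddCommGroup M] [Module ℝ M] (T : Module.End ℝ M)
    (S : Submodule ℝ M) (h : ∀ v ∈ S, T v ∈ S) (g : ℝ[X]) : ∀ v ∈ S, (Polynomial.aeval T g) v ∈ S := by
  induction g using Polynomial.induction_on with
  | C a =>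
    intro v hv
    rw [Polynomial.aeval_C, Module.algebraMap_end_apply]
    exact S.smul_mem a hv
  | add p q hp hq =>
    intro v hv
    rw [map_add, LinearMap.add_apply]
    exact S.add_mem (hp v hv) (hq v hv)
  | monomial n a ih =>
    intro v hv
    rw [pow_succ', mul_left_comm, Polynomial.aeval_mul, Polynomial.aeval_X, Module.End.mul_apply]
    exact h _ (ih v hv)

theorem cyclic_law {M : Type*} [AddCommGroup M] [Module ℝ M] (T : Module.End ℝ M) (u : M)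
    (hu : ∀ v, ∃ g : ℝ[X], v = (Polynomial.aeval T g) u) (S₁ S₂ S₃ : Submodule ℝ M)
    (h₁ : ∀ v ∈ S₁, T v ∈ S₁) (h₂ : ∀ v ∈ S₂, T v ∈ S₂) (h₃ : ∀ v ∈ S₃, T v ∈ S₃) :
    (S₁ ⊔ S₂) ⊓ S₃ ≤ (S₁ ⊓ S₃) ⊔ (S₂ ⊓ S₃) := by
  rintro v ⟨hv, hv3⟩
  obtain ⟨v1, hv1, v2, hv2, rfl⟩ := Submodule.mem_sup.1 hv
  obtain ⟨g1, hg1⟩ := hu v1
  obtain ⟨g2, hg2⟩ := hu v2
  by_cases h0 : EuclideanDomain.gcd g1 g2 = 0
  · rw [EuclideanDomain.gcd_eq_zero_iff] at h0
    rw [hg1, hg2, h0.1, h0.2, map_zero, LinearMap.zero_apply, add_zero]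
    exact Submodule.zero_mem _
  · obtain ⟨b1, hb1⟩ := EuclideanDomain.gcd_dvd_left g1 g2
    obtain ⟨b2, hb2⟩ := EuclideanDomain.gcd_dvd_right g1 g2
    have hab := EuclideanDomain.gcd_eq_gcd_ab g1 g2
    obtain ⟨x, hx⟩ : ∃ x, x = EuclideanDomain.gcdA g1 g2 := ⟨_, rfl⟩
    obtain ⟨y, hy⟩ : ∃ y, y = EuclideanDomain.gcdB g1 g2 := ⟨_, rfl⟩
    obtain ⟨d, hd⟩ : ∃ d, d = EuclideanDomain.gcd g1 g2 := ⟨_, rfl⟩
    rw [← hx, ← hy, ← hd] at hab
    rw [← hd] at hb1 hb2 h0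
    have h1 : x * b1 + y * b2 = 1 := by
      apply mul_left_cancel₀ h0
      calc d * (x * b1 + y * b2) = (d * b1) * x + (d * b2) * y := by ring
        _ = g1 * x + g2 * y := by rw [← hb1, ← hb2]
        _ = d * 1 := by rw [← hab, mul_one]
    have hv12 : v1 + v2 = (Polynomial.aeval T (g1 + g2)) u := by
      rw [map_add, LinearMap.add_apply, ← hg1, ← hg2]
    have hsplit : v1 + v2 = (Polynomial.aeval T (x * b1)) (v1 + v2) +
        (Polynomial.aeval T (y * b2)) (v1 + v2) := by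
      rw [← LinearMap.add_apply, ← map_add, h1, map_one, Module.End.one_apply]
    have e1 : (Polynomial.aeval T (x * b1)) (v1 + v2) =
        (Polynomial.aeval T (x * (b1 + b2))) v1 := by
      rw [hv12, hg1, ← Module.End.mul_apply, ← Module.End.mul_apply, ← Polynomial.aeval_mul,
        ← Polynomial.aeval_mul]
      congr 2
      calc x * b1 * (g1 + g2) = x * b1 * (d * b1 + d * b2) := by rw [← hb1, ← hb2]
        _ = x * (b1 + b2) * (d * b1) := by ring
        _ = x * (b1 + b2) * g1 := by rw [← hb1]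
    have e2 : (Polynomial.aeval T (y * b2)) (v1 + v2) =
        (Polynomial.aeval T (y * (b1 + b2))) v2 := by
      rw [hv12, hg2, ← Module.End.mul_apply, ← Module.End.mul_apply, ← Polynomial.aeval_mul,
        ← Polynomial.aeval_mul]
      congr 2
      calc y * b2 * (g1 + g2) = y * b2 * (d * b1 + d * b2) := by rw [← hb1, ← hb2]
        _ = y * (b1 + b2) * (d * b2) := by ring
        _ = y * (b1 + b2) * g2 := by rw [← hb2]
    rw [hsplit]
    refine Submodule.add_mem_sup ⟨?_, ?_⟩ ⟨?_, ?_⟩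
    · rw [e1]
      exact cycl_mem T S₁ h₁ _ v1 hv1
    · exact cycl_mem T S₃ h₃ _ _ hv3
    · rw [e2]
      exact cycl_mem T S₂ h₂ _ v2 hv2
    · exact cycl_mem T S₃ h₃ _ _ hv3

theorem dlaw_of_cyclic {V K : Type*} {A : (V → ℝ) → V → ℝ} {τ : V → K} (X : Set V)
    (T : Module.End ℝ (V → ℝ)) (hT : ∀ S, Fam A τ S → ∀ f ∈ S, T f ∈ S) (u : V → ℝ)
    (hu : Submodule.span ℝ (Set.range fun n : ℕ => (T ^ n) u) = ⊤) : DLaw A τ X := by
  have hcyc : ∀ v, ∃ g : ℝ[X], v = (Polynomial.aeval T g) u := by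
    intro v
    have hv : v ∈ Submodule.span ℝ (Set.range fun n : ℕ => (T ^ n) u) := by
      rw [hu]
      exact Submodule.mem_top
    induction hv using Submodule.span_induction with
    | mem x hx =>
      obtain ⟨n, rfl⟩ := hx
      exact ⟨Polynomial.X ^ n, by rw [map_pow, Polynomial.aeval_X]⟩
    | zero => exact ⟨0, by rw [map_zero, LinearMap.zero_apply]⟩
    | add x y _ _ hx hy =>
      obtain ⟨g, rfl⟩ := hx
      obtain ⟨h, rfl⟩ := hy
      exact ⟨g + h, by rw [map_add, LinearMap.add_apply]⟩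
    | smul a x _ hx =>
      obtain ⟨g, rfl⟩ := hx
      exact ⟨a • g, by rw [map_smul, LinearMap.smul_apply]⟩
  intro S₁ S₂ S₃ h1 h2 h3 f hf hf3
  exact ⟨f, cyclic_law T u hcyc S₁ S₂ S₃ (hT S₁ h1) (hT S₂ h2) (hT S₃ h3) ⟨hf, hf3⟩,
    fun _ _ => rfl⟩

end Pool.Agent.H97.Dst
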