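import Pool.Agent.H97.Star.Defs

/-!
# Distributive families of subspaces: definitions

Part of `MP_644d19_co` (multiplicity-free theorem). `V` is the set of vertices, `τ : V → K` the type,
`A` the adjacency operator on the functions `V → ℝ`.

* `Fam A τ S`: the subspace `S` contains the constants and is invariant under `A` and under
  the multiplication by the indicator function of every type.
* `DLaw A τ X`: the distributive law for these subspaces, for the restrictions to `X`.
* `Atr r τ X`: `X` is a nonempty set of vertices of one type, and every vertex of this type reaches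
  `X` over a walk over which every `y ∈ X` reaches only `y`.
* `adjA`: the adjacency operator of a typed automaton; it is not changed by exchanges (`adj_flip`).
* `NJ`: the functions that are balanced at all types.
* `Fx`: the functions supported on the type `k`, fixed there by `Mo Γ`, with mean `0`.
-/

set_option autoImplicit false

namespace Pool.Agent.H97.Dst

open Pool.Agent.H75.Bunchy Pool.Agent.H26.Bunchy Pool.Agent.H97.Bun Pool.Agent.H97.Cyc
open Pool.Agent.H97.Star
open scoped Classical

/-- subspaces that contain the constants and are invariant under the operator `A` and under the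
multiplication by the indicator functions of the types -/
structure Fam {V K : Type*} (A : (V → ℝ) → V → ℝ) (τ : V → K) (S : Submodule ℝ (V → ℝ)) :
    Prop where
  one : (fun _ => (1 : ℝ)) ∈ S
  ind : ∀ κ, ∀ f ∈ S, (fun q => if τ q = κ then f q else 0) ∈ S
  adj : ∀ f ∈ S, A f ∈ S

/-- the distributive law on `X` -/
def DLaw {V K : Type*} (A : (V → ℝ) → V → ℝ) (τ : V → K) (X : Set V) : Prop :=
  ∀ S₁ S₂ S₃ : Submodule ℝ (V → ℝ), Fam A τ S₁ → Fam A τ S₂ → Fam A τ S₃ →
    ∀ f ∈ S₁ ⊔ S₂, f ∈ S₃ → ∃ g ∈ (S₁ ⊓ S₃) ⊔ (S₂ ⊓ S₃), ∀ x ∈ X, g x = f x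

/-- attractors -/
structure Atr {V K : Type*} (r : V → V → Prop) (τ : V → K) (X : Set V) : Prop where
  ne : X.Nonempty
  typ : ∀ x ∈ X, ∀ y ∈ X, τ x = τ y
  absorb : ∀ q, ∀ x ∈ X, τ q = τ x →
    ∃ β, (∀ y ∈ X, ∀ t, Al r τ y β t ↔ t = y) ∧ ∃ y ∈ X, Al r τ q β y

section
variable {V K : Type*} {A : (V → ℝ) → V → ℝ} {τ : V → K}

lemma Fam.const {S : Submodule ℝ (V → ℝ)} (h : Fam A τ S) (c : ℝ) : (fun _ => c) ∈ S := by
  have := S.smul_mem c h.one
  have he : (fun _ : V => c) = c • (fun _ => (1 : ℝ)) := by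
    funext q
    simp
  rw [he]
  exact this

end

/-- the adjacency operator of a typed automaton -/
noncomputable def adjA {V K E : Type*} [Fintype E] (s : E → K) (σ : V → K) (a : V → E → V)
    (f : V → ℝ) (q : V) : ℝ :=
  ∑ e, if s e = σ q then f (a q e) else 0

lemma adj_flip {V K E : Type*} [Fintype E] {s : E → K} {σ : V → K} {a : V → E → V} {e1 e2 : E}
    (hs : s e1 = s e2) (δ : Set V) : adjA s σ (flip e1 e2 δ a) = adjA s σ a := by
  funext f q
  unfold adjA
  by_cases hq : q ∈ δ
  · rw [← Equiv.sum_comp (Equiv.swap e1 e2)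
      (fun e => if s e = σ q then f (a q e) else 0)]
    refine Finset.sum_congr rfl fun e _ => ?_
    rw [flip_of_mem hq, s_swap hs]
  · refine Finset.sum_congr rfl fun e _ => ?_
    rw [flip_of_notMem hq]

section
variable {V K E : Type*} [Fintype V] [Fintype E]

/-- the functions that are balanced at every type -/
noncomputable def NJ (s t : E → K) (σ : V → K) (a : V → E → V) (μ : V → ℝ) :
    Submodule ℝ (V → ℝ) where
  carrier := {f | ∀ κ, ∃ c, Bl s t σ a μ κ f c}
  zero_mem' := fun _ => ⟨0, bl_zero⟩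
  add_mem' := by
    intro f g hf hg κ
    obtain ⟨c, hc⟩ := hf κ
    obtain ⟨d, hd⟩ := hg κ
    exact ⟨c + d, bl_add hc hd⟩
  smul_mem' := by
    intro r f hf κ
    obtain ⟨c, hc⟩ := hf κ
    exact ⟨r * c, bl_smul r hc⟩

/-- the functions supported on the type `k`, fixed there by `Mo Γ`, of mean `0` -/
noncomputable def Fx (s t : E → K) (σ : V → K) (a : V → E → V) (μ : V → ℝ) (k : K)
    (Γ : List K) : Submodule ℝ (V → ℝ) where
  carrier := {f | (∀ q, σ q = k → Mo s t σ a Γ f q = f q) ∧ (∀ q, σ q ≠ k → f q = 0) ∧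
    mean σ μ k f = 0}
  zero_mem' := by
    refine ⟨fun q _ => by simp, fun _ _ => rfl, ?_⟩
    have := mean_smul σ μ k 0 (fun _ => (0 : ℝ))
    simp only [zero_mul] at this
    exact this
  add_mem' := by
    rintro f g ⟨h1, h2, h3⟩ ⟨h1', h2', h3'⟩
    refine ⟨fun q hq => ?_, fun q hq => ?_, ?_⟩
    · rw [map_add, Pi.add_apply, h1 q hq, h1' q hq, Pi.add_apply]
    · rw [Pi.add_apply, h2 q hq, h2' q hq, add_zero]
    · have := mean_add σ μ k f g
      rw [h3, h3', add_zero] at this
      exact this
  smul_mem' := by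
    rintro r f ⟨h1, h2, h3⟩
    refine ⟨fun q hq => ?_, fun q hq => ?_, ?_⟩
    · rw [map_smul, Pi.smul_apply, h1 q hq, Pi.smul_apply]
    · rw [Pi.smul_apply, h2 q hq, smul_zero]
    · have := mean_smul σ μ k r f
      rw [h3, mul_zero] at this
      exact this

end

/-- the restriction of functions along `p` -/
def rst {V X : Type*} (p : X → V) : (V → ℝ) →ₗ[ℝ] (X → ℝ) where
  toFun f x := f (p x)
  map_add' _ _ := rfl
  map_smul' _ _ := rfl

end Pool.Agent.H97.Dst
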