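import Pool.Agent.H97.Dst.GDefs

/-!
# Graph level: adjacency operators (see the header of `GDefs.lean` for the proof)

Part of `MP_644d19_co` (multiplicity-free theorem).
-/

set_option autoImplicit false

namespace Pool.Agent.H97.Dst

open Pool.Agent.H75.Bunchy Pool.Agent.H26.Bunchy Pool.Agent.H97.Bun Pool.Agent.H97.Star
open scoped Classical

variable {G H Q : Graph}

lemma adjG_eq (Φ : RightResolver G H) [Fintype H.E] : adjG G = adjA H.src Φ.v Φ.act := by
  funext f q
  unfold adjG adjA
  letI : Fintype G.E := Fintype.ofFinite G.E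
  rw [← Finset.sum_filter, ← Finset.sum_filter]
  refine Finset.sum_nbij Φ.e ?_ ?_ ?_ ?_
  · intro e he
    simp only [Finset.mem_filter, Finset.mem_univ, true_and] at he ⊢
    rw [Φ.src_comm, he]
  · intro e he e' he' h
    simp only [Finset.coe_filter, Finset.mem_univ, true_and, Set.mem_setOf_eq] at he he'
    exact (Φ.bij q).injOn he he' h
  · intro g hg
    simp only [Finset.coe_filter, Finset.mem_univ, true_and, Set.mem_setOf_eq] at hg
    obtain ⟨e, he, hge⟩ := (Φ.bij q).surjOn hg
    refine ⟨e, ?_, hge⟩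
    simp only [Finset.coe_filter, Finset.mem_univ, true_and, Set.mem_setOf_eq]
    exact he
  · intro e he
    simp only [Finset.mem_filter, Finset.mem_univ, true_and] at he
    subst he
    rw [Φ.act_eq]

lemma adjG_comp (Ψ : RightResolver G Q) (f : Q.V → ℝ) (q : G.V) :
    adjG G (fun p => f (Ψ.v p)) q = adjG Q f (Ψ.v q) := by
  unfold adjG
  letI : Fintype G.E := Fintype.ofFinite G.E
  letI : Fintype Q.E := Fintype.ofFinite Q.E
  rw [← Finset.sum_filter, ← Finset.sum_filter]
  refine Finset.sum_nbij Ψ.e ?_ ?_ ?_ ?_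
  · intro e he
    simp only [Finset.mem_filter, Finset.mem_univ, true_and] at he ⊢
    rw [Ψ.src_comm, he]
  · intro e he e' he' h
    simp only [Finset.coe_filter, Finset.mem_univ, true_and, Set.mem_setOf_eq] at he he'
    exact (Ψ.bij q).injOn he he' h
  · intro g hg
    simp only [Finset.coe_filter, Finset.mem_univ, true_and, Set.mem_setOf_eq] at hg
    obtain ⟨e, he, hge⟩ := (Ψ.bij q).surjOn hg
    refine ⟨e, ?_, hge⟩
    simp only [Finset.coe_filter, Finset.mem_univ, true_and, Set.mem_setOf_eq]
    exact he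
  · intro e _
    rw [Ψ.tgt_comm]

end Pool.Agent.H97.Dst
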