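import Pool.Agent.H97.Dst.GA
import Pool.Agent.H97.Dst.Atr

/-!
# Graph level: factors (see the header of `GDefs.lean` for the proof)

Part of `MP_644d19_co` (multiplicity-free theorem).
-/

set_option autoImplicit false

namespace Pool.Agent.H97.Dst

open Pool.Agent.H75.Bunchy Pool.Agent.H26.Bunchy Pool.Agent.H97.Bun Pool.Agent.H97.Star
open scoped Classical

variable {G H Q : Graph}

private lemma gb_fam (Ψ : RightResolver G Q) (w : Q.V → H.V) (v : G.V → H.V)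
    (hv : ∀ q, w (Ψ.v q) = v q) {S : Submodule ℝ (Q.V → ℝ)} (h : Fam (adjG Q) w S) :
    Fam (adjG G) v (S.map (rst Ψ.v)) := by
  refine ⟨⟨_, h.one, rfl⟩, ?_, ?_⟩
  · rintro κ _ ⟨f, hf, rfl⟩
    refine ⟨_, h.ind κ f hf, ?_⟩
    funext q
    show (if w (Ψ.v q) = κ then f (Ψ.v q) else 0) = if v q = κ then f (Ψ.v q) else 0
    rw [hv]
  · rintro _ ⟨f, hf, rfl⟩
    refine ⟨_, h.adj f hf, ?_⟩
    funext q
    exact (adjG_comp Ψ f q).symm

private lemma gb_law (Ψ : RightResolver G Q) (w : Q.V → H.V) (v : G.V → H.V)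
    (hv : ∀ q, w (Ψ.v q) = v q) {X : Set G.V} (h : DLaw (adjG G) v X) :
    DLaw (adjG Q) w (Ψ.v '' X) := by
  intro S₁ S₂ S₃ h1 h2 h3 f hf hf3
  have hinj : Function.Injective (rst Ψ.v : (Q.V → ℝ) →ₗ[ℝ] (G.V → ℝ)) := by
    intro f g hfg
    funext q
    obtain ⟨p, rfl⟩ := Ψ.v_surj q
    exact congrFun hfg p
  obtain ⟨g, hg, hgx⟩ := h _ _ _ (gb_fam Ψ w v hv h1) (gb_fam Ψ w v hv h2)
    (gb_fam Ψ w v hv h3) (rst Ψ.v f)
    (by
      rw [← Submodule.map_sup]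
      exact ⟨f, hf, rfl⟩) ⟨f, hf3, rfl⟩
  rw [← Submodule.map_inf _ hinj, ← Submodule.map_inf _ hinj, ← Submodule.map_sup] at hg
  obtain ⟨g', hg', rfl⟩ := hg
  refine ⟨g', hg', ?_⟩
  rintro _ ⟨x, hx, rfl⟩
  exact hgx x hx

private lemma gb_atr (v : G.V → H.V) {X : Set G.V} :
    Atr (fun p q => q ∈ G.Followers p) v X ↔ X.Nonempty ∧ (∀ x ∈ X, ∀ y ∈ X, v x = v y) ∧
      ∀ q, ∀ x ∈ X, v q = v x →
        ∃ β, (∀ y ∈ X, ∀ t, Along v y β t ↔ t = y) ∧ ∃ y ∈ X, Along v q β y := by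
  constructor
  · rintro ⟨h1, h2, h3⟩
    refine ⟨h1, h2, fun q x hx hq => ?_⟩
    obtain ⟨β, a, y, hy, b⟩ := h3 q x hx hq
    refine ⟨β, fun y hy t => ?_, y, hy, (al_iff v q y β).1 b⟩
    rw [← al_iff]
    exact a y hy t
  · rintro ⟨h1, h2, h3⟩
    refine ⟨h1, h2, fun q x hx hq => ?_⟩
    obtain ⟨β, a, y, hy, b⟩ := h3 q x hx hq
    refine ⟨β, fun y hy t => ?_, y, hy, (al_iff v q y β).2 b⟩
    rw [al_iff]
    exact a y hy t

lemma DistEnds.image (Ψ : RightResolver G Q) (w : Q.V → H.V) (v : G.V → H.V)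
    (hv : ∀ q, w (Ψ.v q) = v q) {X : Set G.V} (h : DistEnds v X) :
    DistEnds w (Ψ.v '' X) := by
  have hA : Atr (fun p q => q ∈ G.Followers p) v X := (gb_atr v).2 ⟨h.ne, h.typ, h.absorb⟩
  have hB : Atr (fun p q => q ∈ Q.Followers p) w (Ψ.v '' X) := by
    refine Atr.image (fun q => Ψ.v q) hv Ψ.v_surj ?_ ?_ hA
    · intro q q' hq
      have hq' : q' ∈ G.Followers q := hq
      change Ψ.v q' ∈ Q.Followers (Ψ.v q)
      rw [followers_image]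
      exact ⟨q', hq', rfl⟩
    · intro q w' hw
      have hw' : w' ∈ Q.Followers (Ψ.v q) := hw
      rw [followers_image] at hw'
      obtain ⟨q', h1, h2⟩ := hw'
      exact ⟨q', h1, h2⟩
  obtain ⟨h1, h2, h3⟩ := (gb_atr w).1 hB
  exact ⟨h1, h2, h3, gb_law Ψ w v hv h.law⟩

end Pool.Agent.H97.Dst
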