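import Pool.Agent.H97.Dst.AsmB
import Pool.Agent.H97.Star.ClsB

/-!
# Finer types

Part of `MP_644d19_co` (multiplicity-free theorem).

`adjA_fine`: for the refined automaton `b` (letters `f` with `b p f = a p (φ f)`, `φ` a bijection from the letters `f`
with `s' f = σ' q` to the letters `e` with `s e = σ q`) the adjacency operator is the same
(`Finset.sum_bij` or two filters and `Finset.sum_nbij`).

`dst_all`: copy the proof of `star_all` (`Star/ClsB.lean`, induction on the number of pairs of states of the same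
type, `flp_lift`, `AllBad`), with `Atr` and `DLaw` instead of `Orb`: `Step` and `adjA` do not change by exchanges
(`step_flip`, `adj_flip`) and for the refined automaton (`adjA_fine`); `Atr.refine`, `DLaw.refine`, `rr_step`; in the
total case `dst_total`.
-/

set_option autoImplicit false

namespace Pool.Agent.H97.Dst

open Pool.Agent.H75.Bunchy Pool.Agent.H26.Bunchy Pool.Agent.H97.Bun Pool.Agent.H97.Cyc
open Pool.Agent.H97.Star
open scoped Classical

theorem adjA_fine {V K E K' E' : Type*} [Fintype E] [Fintype E'] {s : E → K} {σ : V → K}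
    {a : V → E → V} {s' : E' → K'} {σ' : V → K'} {b : V → E' → V} {φ : E' → E}
    (hact : ∀ p f, s' f = σ' p → s (φ f) = σ p ∧ b p f = a p (φ f))
    (hlift : ∀ p e, s e = σ p → ∃ f, s' f = σ' p ∧ φ f = e)
    (hinj : ∀ f f', s' f = s' f' → φ f = φ f' → f = f') :
    adjA s' σ' b = adjA s σ a := by
  funext f q
  unfold adjA
  rw [← Finset.sum_filter, ← Finset.sum_filter]
  refine Finset.sum_bij (fun e _ => φ e) ?_ ?_ ?_ ?_
  · intro e he
    rw [Finset.mem_filter] at he ⊢
    exact ⟨Finset.mem_univ _, (hact q e he.2).1⟩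
  · intro e he e' he' h
    rw [Finset.mem_filter] at he he'
    exact hinj e e' (he.2.trans he'.2.symm) h
  · intro e he
    rw [Finset.mem_filter] at he
    obtain ⟨f', hf', hφ⟩ := hlift q e he.2
    exact ⟨f', Finset.mem_filter.2 ⟨Finset.mem_univ _, hf'⟩, hφ⟩
  · intro e he
    rw [Finset.mem_filter] at he
    rw [(hact q e he.2).2]

/-- what is preserved by exchanges -/
private lemma flp_reach {V K E : Type*} [Fintype E] {s t : E → K} {σ : V → K} {a a' : V → E → V}
    (ha : Typed s t σ a) (h : Relation.ReflTransGen (Flp s t σ) a a') :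
    Typed s t σ a' ∧ Step s σ a' = Step s σ a ∧ adjA s σ a' = adjA s σ a := by
  induction h with
  | refl => exact ⟨ha, rfl, rfl⟩
  | tail _ h2 ih =>
    obtain ⟨i1, i2, i3⟩ := ih
    obtain ⟨e1, e2, x, hs, ht, -, rfl⟩ := h2
    refine ⟨Typed.flip hs ht i1 {x}, ?_, ?_⟩
    · rw [← i2]
      funext p q
      exact propext (step_flip hs {x} p q)
    · rw [← i3]
      exact adj_flip hs {x}

private lemma dst_all_aux {V : Type} [Fintype V] (n : ℕ) : ∀ {K E : Type} [Fintype E]
    {s t : E → K} {σ : V → K} {a : V → E → V} {X : Set V},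
    {q : V × V | σ q.1 = σ q.2}.ncard = n → Typed s t σ a → Conn s σ a →
    (∀ e, ∃ p, s e = σ p) → Atr (Step s σ a) σ X → DLaw (adjA s σ a) σ X →
    (∃ e1 e2 i, Flx s t σ a e1 e2 i) → ¬ AllBad s t σ a := by
  induction n using Nat.strong_induction_on with
  | _ n ih =>
  intro K E _ s t σ a X hn ha hcn hsu hX hD hex hAB
  by_cases hT : ∀ a', Relation.ReflTransGen (Flp s t σ) a a' → ∀ e1 e2 i, Flx s t σ a' e1 e2 i →
      Total s σ a' (a' i e1) (a' i e2)
  · -- the total case
    obtain ⟨x₀, hx₀⟩ := hX.ne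
    have hne0 : Nonempty V := ⟨x₀⟩
    obtain ⟨pr, hpr0, hpr1, hpr2⟩ := exists_pr s
    obtain ⟨f1, f2, i₀, -, -, -, hi₀⟩ := id hex
    obtain ⟨μ, hμ⟩ := exists_stat ha hcn hpr0 (fun p => hpr2 (σ p) (exists_letter hcn hi₀ p))
    refine dst_total ha hcn hμ hpr1 hsu hX hD (hAB a Relation.ReflTransGen.refl) ?_ hex
    intro e1 e2 i hF
    obtain ⟨hs, ht, hx, hne⟩ := id hF
    have hr : Relation.ReflTransGen (Flp s t σ) a (flip e1 e2 {i} a) :=
      Relation.ReflTransGen.single ⟨e1, e2, i, hs, ht, hx, rfl⟩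
    have hF' : Flx s t σ (flip e1 e2 {i} a) e1 e2 i := by
      refine ⟨hs, ht, hx, ?_⟩
      rw [flip_left (Set.mem_singleton i), flip_right (Set.mem_singleton i)]
      exact hne.symm
    have h1 := hT _ hr e1 e2 i hF'
    rw [flip_left (Set.mem_singleton i), flip_right (Set.mem_singleton i)] at h1
    exact ⟨hAB _ hr, hT a Relation.ReflTransGen.refl e1 e2 i hF, h1⟩
  · -- finer types
    push Not at hT
    obtain ⟨a', hra, e1, e2, x, ⟨hs, ht, hx, hne⟩, hnT⟩ := hT
    obtain ⟨ha', hst, hadj⟩ := flp_reach ha hra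
    have hcn1 : Conn s σ a' := by
      unfold Conn
      rw [hst]
      exact hcn
    have hx2 : s e2 = σ x := by rw [← hs]; exact hx
    set y := a' x e1 with hy
    set y' := a' x e2 with hy'
    have hyy : σ y = σ y' := by rw [hy, hy', ha' x e1 hx, ha' x e2 hx2, ht]
    -- new types and letters
    let S : Setoid V := cset s σ a' y y'
    let σ' : V → Quotient S := fun p => Quotient.mk S p
    let s' : NewE s σ a' y y' → Quotient S := fun f => f.1.1
    let t' : NewE s σ a' y y' → Quotient S := fun f => Quotient.mk S (a' (Quotient.out f.1.1) f.1.2)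
    let φ : NewE s σ a' y y' → E := fun f => f.1.2
    let b : V → NewE s σ a' y y' → V := fun p f => a' p f.1.2
    have hfin0 : Finite (NewE s σ a' y y') := by
      unfold NewE
      infer_instance
    let hfin : Fintype (NewE s σ a' y y') := Fintype.ofFinite _
    have hout : ∀ p, Cgr s σ a' y y' (Quotient.out (σ' p)) p := fun p => Quotient.mk_out (s := S) p
    have hout' : ∀ p, Cgr s σ a' y y' p (Quotient.out (σ' p)) := fun p =>
      (cgr_equiv s σ a' y y').symm (hout p)
    have hfine : ∀ p q, σ' p = σ' q → σ p = σ q := fun p q h =>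
      cgr_type ha' hyy (Quotient.exact h : Cgr s σ a' y y' p q)
    have hact : ∀ p f, s' f = σ' p → s (φ f) = σ p ∧ b p f = a' p (φ f) := by
      intro p f hf
      refine ⟨?_, rfl⟩
      have h1 : s (φ f) = σ (Quotient.out (s' f)) := f.2
      rw [h1, hf]
      exact cgr_type ha' hyy (hout p)
    have hlift : ∀ p e, s e = σ p → ∃ f, s' f = σ' p ∧ φ f = e := by
      intro p e he
      refine ⟨⟨(σ' p, e), ?_⟩, rfl, rfl⟩
      rw [he]
      exact cgr_type ha' hyy (hout' p)
    have hb : Typed s' t' σ' b := by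
      intro p f hf
      have h1 : s (φ f) = σ p := (hact p f hf).1
      have h2 : Cgr s σ a' y y' (a' p (φ f)) (a' (Quotient.out (s' f)) (φ f)) := by
        rw [hf]
        exact cgr_letter (hout' p) h1
      exact Quotient.sound (s := S) h2
    have hxe1 : s e1 = σ (Quotient.out (σ' x)) := by
      rw [hx]; exact cgr_type ha' hyy (hout' x)
    have hxe2 : s e2 = σ (Quotient.out (σ' x)) := by
      rw [hx2]; exact cgr_type ha' hyy (hout' x)
    let e1' : NewE s σ a' y y' := ⟨(σ' x, e1), hxe1⟩
    let e2' : NewE s σ a' y y' := ⟨(σ' x, e2), hxe2⟩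
    have hs' : s' e1' = s' e2' := rfl
    have ht' : t' e1' = t' e2' := by
      rw [← hb x e1' rfl, ← hb x e2' rfl]
      exact Quotient.sound (s := S) (cgr_mem : Cgr s σ a' y y' y y')
    have hinj : ∀ f f', s' f = s' f' → φ f = φ f' → f = f' := fun f f' h1 h2 =>
      Subtype.ext (Prod.ext h1 h2)
    have hcn' : Conn s' σ' b := conn_trans hact hlift hcn1
    have hsu' : ∀ f, ∃ p, s' f = σ' p := fun f =>
      ⟨Quotient.out (s' f), (Quotient.out_eq (s' f)).symm⟩
    -- the number of pairs
    have hlt : {q : V × V | σ' q.1 = σ' q.2}.ncard < n := by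
      rw [← hn]
      refine Set.ncard_lt_ncard ?_ (Set.toFinite _)
      rw [Set.ssubset_iff_subset_ne]
      refine ⟨fun q hq => hfine _ _ hq, fun heq => ?_⟩
      apply hnT
      intro R hR h1 h2 h3 u v huv
      have hm : (u, v) ∈ {q : V × V | σ' q.1 = σ' q.2} := by
        rw [heq]
        exact huv
      have hc : Cgr s σ a' y y' u v := Quotient.exact hm
      exact hc R hR h1 h2 h3
    -- symmetric ends
    have hst' : Step s' σ' b = Step s σ a := by
      rw [← hst]
      funext u v
      apply propext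
      constructor
      · rintro ⟨f, hf, hv⟩
        obtain ⟨h1, h2⟩ := hact u f hf
        exact ⟨φ f, h1, by rw [← h2]; exact hv⟩
      · rintro ⟨e, he, hv⟩
        obtain ⟨f, hf, hφ⟩ := hlift u e he
        exact ⟨f, hf, by rw [(hact u f hf).2, hφ]; exact hv⟩
    have hadj' : adjA s' σ' b = adjA s σ a := by
      rw [← hadj]
      exact adjA_fine hact hlift hinj
    let g : Quotient S → K := Quotient.lift σ (fun u v huv => cgr_type ha' hyy huv)
    obtain ⟨X', hX1, hX2⟩ := Atr.refine (τ' := σ') (g := g) (fun _ => rfl)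
      (by rw [← hst']; exact rr_step hb) hX
    have hD2 : DLaw (adjA s' σ' b) σ' X' := by
      rw [hadj']
      exact DLaw.refine (g := g) (fun _ => rfl) hD hX1
    rw [← hst'] at hX2
    refine ih _ hlt rfl hb hcn' hsu' hX2 hD2 ⟨e1', e2', x, hs', ht', rfl, hne⟩ ?_
    intro b₁ hb₁
    obtain ⟨a₁, r1, r2, r3, r4⟩ := flp_lift ha' hb hact hinj hfine hb₁
    exact noStable_trans r2 r3 r4 hlift hfine (hAB a₁ (hra.trans r1))

theorem dst_all {V K E : Type} [Fintype V] [Fintype E] {s t : E → K} {σ : V → K}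
    {a : V → E → V} (ha : Typed s t σ a) (hcn : Conn s σ a) (hsu : ∀ e, ∃ p, s e = σ p)
    {X : Set V} (hX : Atr (Step s σ a) σ X) (hD : DLaw (adjA s σ a) σ X)
    (hex : ∃ e1 e2 i, Flx s t σ a e1 e2 i) : ¬ AllBad s t σ a := by
  exact dst_all_aux _ rfl ha hcn hsu hX hD hex

end Pool.Agent.H97.Dst
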