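import Pool.Agent.H97.Dst.GA
import Pool.Agent.H97.Dst.Ind

/-!
# Graph level: the step (see the header of `GDefs.lean` for the proof)

Part of `MP_644d19_co` (multiplicity-free theorem).
-/

set_option autoImplicit false

namespace Pool.Agent.H97.Dst

open Pool.Agent.H75.Bunchy Pool.Agent.H26.Bunchy Pool.Agent.H97.Bun Pool.Agent.H97.Star
open scoped Classical

variable {G H Q : Graph}

theorem distEnds_step (Φ : RightResolver G H) (hG : G.StronglyConnected) {X : Set G.V}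
    (h : DistEnds Φ.v X) {p₀ : G.V} {g g' : H.E}
    (hsg : H.src g = Φ.v p₀) (hsg' : H.src g' = H.src g) (htg' : H.tgt g' = H.tgt g)
    (hne : Φ.act p₀ g ≠ Φ.act p₀ g') :
    ∃ Φ' : RightResolver G H, Φ'.v = Φ.v ∧ ¬ NoStable H.src H.tgt Φ'.v Φ'.act := by
  by_contra hcon
  push Not at hcon
  letI := Fintype.ofFinite G.V
  letI := Fintype.ofFinite H.E
  have hstep : Step H.src Φ.v Φ.act = fun p q => q ∈ G.Followers p := by
    funext u w
    exact propext (Φ.step_iff u w)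
  have hO : Atr (Step H.src Φ.v Φ.act) Φ.v X := by
    rw [hstep]
    refine ⟨h.ne, h.typ, fun q x hx hq => ?_⟩
    obtain ⟨β, h1, y, hy, h2⟩ := h.absorb q x hx hq
    exact ⟨β, fun z hz t => (al_iff _ _ _ _).trans (h1 z hz t), y, hy, (al_iff _ _ _ _).2 h2⟩
  have hD : DLaw (adjA H.src Φ.v Φ.act) Φ.v X := by
    rw [← adjG_eq Φ]
    exact h.law
  refine dst_all Φ.act_typed (Φ.conn hG) ?_ hO hD ⟨g, g', p₀, hsg'.symm, htg'.symm, hsg, hne⟩ ?_
  · intro e
    obtain ⟨q, hq⟩ := Φ.v_surj (H.src e)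
    exact ⟨q, hq.symm⟩
  · intro a' ha'
    obtain ⟨Φ', hv, ha⟩ := exists_of_flp Φ ha'
    have h1 := hcon Φ' hv
    rw [hv, ha] at h1
    exact h1

end Pool.Agent.H97.Dst
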