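import Pool.Agent.H97.Dst.GA
import Pool.Agent.H97.Dst.Cycl

/-!
# Graph level: cyclic weighted adjacency operators (see the header of `GDefs.lean` for the proof)

Part of `MP_644d19_co` (multiplicity-free theorem).
-/

set_option autoImplicit false

namespace Pool.Agent.H97.Dst

open Pool.Agent.H75.Bunchy Pool.Agent.H26.Bunchy Pool.Agent.H97.Bun Pool.Agent.H97.Star
open scoped Classical

variable {G H Q : Graph}

private lemma wadj_eq (v : G.V → H.V) (c : H.V → H.V → ℝ) (f : G.V → ℝ) [Fintype H.V] :
    wadj v c f = ∑ I : H.V, ∑ J : H.V, c I J • (fun q => if v q = I then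
      adjG G (fun p => if v p = J then f p else 0) q else 0) := by
  funext q
  letI := Fintype.ofFinite G.E
  have h1 : wadj v c f q = ∑ e : G.E, if G.src e = q then c (v q) (v (G.tgt e)) * f (G.tgt e) else 0 := rfl
  have h2 : ∀ J, adjG G (fun p => if v p = J then f p else 0) q =
      ∑ e : G.E, if G.src e = q then (if v (G.tgt e) = J then f (G.tgt e) else 0) else 0 := fun J => rfl
  rw [h1, Finset.sum_apply, Finset.sum_eq_single (v q)]
  · rw [Finset.sum_apply]
    simp only [Pi.smul_apply, smul_eq_mul, if_true, h2, Finset.mul_sum]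
    rw [Finset.sum_comm]
    refine Finset.sum_congr rfl fun e _ => ?_
    by_cases he : G.src e = q
    · simp only [if_pos he]
      rw [Finset.sum_eq_single (v (G.tgt e))]
      · rw [if_pos rfl]
      · intro J _ hJ
        rw [if_neg (fun h => hJ h.symm), mul_zero]
      · intro h
        exact absurd (Finset.mem_univ _) h
    · simp only [if_neg he, mul_zero, Finset.sum_const_zero]
  · intro I _ hI
    rw [Finset.sum_apply]
    refine Finset.sum_eq_zero fun J _ => ?_
    simp only [Pi.smul_apply, smul_eq_mul]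
    rw [if_neg (fun h => hI h.symm), mul_zero]
  · intro h
    exact absurd (Finset.mem_univ _) h

/-- a cyclic weighted adjacency operator -/
theorem distEnds_of_cyclic (v : G.V → H.V) (c : H.V → H.V → ℝ) (u : G.V → ℝ)
    (hu : Submodule.span ℝ (Set.range fun n : ℕ => (wadj v c ^ n) u) = ⊤) (x : G.V) :
    DistEnds v {q | v q = v x} := by
  refine ⟨⟨x, rfl⟩, ?_, ?_, ?_⟩
  · intro y hy z hz
    rw [Set.mem_setOf_eq] at hy hz
    rw [hy, hz]
  · intro q y hy hq
    refine ⟨[], fun z _ t => ?_, q, ?_, rfl⟩
    · exact eq_comm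
    · rw [Set.mem_setOf_eq] at hy ⊢
      rw [hq, hy]
  · refine dlaw_of_cyclic _ (wadj v c) ?_ u hu
    intro S hS f hf
    letI := Fintype.ofFinite H.V
    rw [wadj_eq]
    refine Submodule.sum_mem _ fun I _ => Submodule.sum_mem _ fun J _ => S.smul_mem _ ?_
    exact hS.ind I _ (hS.adj _ (hS.ind J f hf))

end Pool.Agent.H97.Dst
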