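import Pool.Agent.H97.Dst.Defs
import Pool.Agent.H97.Star.Main

/-!
# Graph level: definitions (the proofs of the other modules are described here)

Part of `MP_644d19_co` (multiplicity-free theorem). Graph level.

* `adjG_eq`: the edges from `q` correspond to the edges `g` of `H` with `src g = Φ.v q` (`Φ.bij q`), and `Φ.act q (Φ.e f) = tgt f`
  (`act_eq`).
* `adjG_comp`: for a right resolver `Ψ : G → Q`: `G.adj (f ∘ Ψ.v) = (Q.adj f) ∘ Ψ.v` (bijection `Ψ.bij q`).
* `DistEnds.image`: for a right resolver `Ψ`, `w (Ψ.v q) = v q`: `Atr.image` (as `SymEnds.image` in `Star/Main.lean`), and for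
  members `S` of the family of `Q` the subspace `S.map (· ∘ Ψ.v)` is a member of the family of `G` (`adjG_comp`;
  the indicator of `K` pulls back), pullback is injective (`Ψ.v` surjective) and commutes with `⊔` and `⊓`
  (`Submodule.map_sup`, `Submodule.map_inf` with injectivity): so the distributive law passes to `Q`,
  on the image of `X`.
* `distEnds_step`: by contradiction, as `symEnds_step` (`Star/Main.lean`): `AllBad` for `Φ.act` (`exists_of_flp`), `dst_all`.
* `distEnds_of_cyclic`: `X` = the fibre of any vertex; the empty walk; `dlaw_of_cyclic` (`wadj` preserves the members: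
  `wadj c f = ∑ I, ∑ J, c I J • 1_I * adj (1_J f)`, finite sums over the vertices of `H`).
-/

set_option autoImplicit false

namespace Pool.Agent.H97.Dst

open Pool.Agent.H75.Bunchy Pool.Agent.H26.Bunchy Pool.Agent.H97.Bun Pool.Agent.H97.Star
open scoped Classical

/-- the weighted adjacency operator of `G` on functions: `c I J` is the weight of the edges from
vertices over `I` to vertices over `J` -/
noncomputable def wadj {G H : Graph} (v : G.V → H.V) (c : H.V → H.V → ℝ) :
    Module.End ℝ (G.V → ℝ) :=
  letI := Fintype.ofFinite G.E
  { toFun := fun f q => ∑ e : G.E, if G.src e = q then c (v q) (v (G.tgt e)) * f (G.tgt e) else 0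
    map_add' := by
      intro f g
      funext q
      simp only [Pi.add_apply]
      rw [← Finset.sum_add_distrib]
      refine Finset.sum_congr rfl fun e _ => ?_
      split_ifs <;> ring
    map_smul' := by
      intro r f
      funext q
      simp only [Pi.smul_apply, smul_eq_mul, RingHom.id_apply]
      rw [Finset.mul_sum]
      refine Finset.sum_congr rfl fun e _ => ?_
      split_ifs <;> ring }

/-- the adjacency operator of `G` on functions -/
noncomputable def adjG (G : Graph) (f : G.V → ℝ) (q : G.V) : ℝ :=
  letI := Fintype.ofFinite G.E
  ∑ e : G.E, if G.src e = q then f (G.tgt e) else 0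

/-- Distributive ends: `X` is a nonempty set of vertices of `G` over one vertex `K` of `H`; from
every vertex `q` over `K` some `y ∈ X` is reached over a sequence of vertices of `H` over which
every `y ∈ X` reaches itself and no other vertex; and the subspaces of the space of functions on
the vertices of `G` that contain the constants and are invariant under the adjacency operator and
under the multiplication by the indicator functions of the fibres satisfy the distributive law
after restriction to `X`. -/
structure DistEnds {G H : Graph} (v : G.V → H.V) (X : Set G.V) : Prop where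
  ne : X.Nonempty
  typ : ∀ x ∈ X, ∀ y ∈ X, v x = v y
  absorb : ∀ q, ∀ x ∈ X, v q = v x →
    ∃ β, (∀ y ∈ X, ∀ t, Along v y β t ↔ t = y) ∧ ∃ y ∈ X, Along v q β y
  law : DLaw (adjG G) v X

end Pool.Agent.H97.Dst
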