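import Pool.Agent.H97.Dst.Main

/-!
# Operators that are cyclic over one fibre

Part of `MP_644d19_co` (multiplicity-free theorem). `CyclicOver v K`: some operator `T` in the algebra
generated by the adjacency operator and the multiplications by the indicator functions of the fibres
has a vector `u` such that all functions supported on the fibre of `K` are combinations of the
vectors `T ^ n u`.
-/

set_option autoImplicit false

namespace Pool.Agent.H97.Dst

open Pool.Agent.H75.Bunchy Pool.Agent.H26.Bunchy Pool.Agent.H97.Bun Pool.Agent.H97.Star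
open scoped Classical Polynomial

private theorem loc_mem {M : Type*} [AddCommGroup M] [Module ℝ M] (T : Module.End ℝ M)
    (S : Submodule ℝ M) (h : ∀ v ∈ S, T v ∈ S) (g : ℝ[X]) : ∀ v ∈ S, (Polynomial.aeval T g) v ∈ S := by
  induction g using Polynomial.induction_on with
  | C a =>
    intro v hv
    rw [Polynomial.aeval_C, Module.algebraMap_end_apply]
    exact S.smul_mem a hv
  | add p q hp hq =>
    intro v hv
    rw [map_add, LinearMap.add_apply]
    exact S.add_mem (hp v hv) (hq v hv)
  | monomial n a ih =>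
    intro v hv
    rw [pow_succ', mul_left_comm, Polynomial.aeval_mul, Polynomial.aeval_X, Module.End.mul_apply]
    exact h _ (ih v hv)

/-- the local form of `cyclic_law` -/
theorem cyclic_two {M : Type*} [AddCommGroup M] [Module ℝ M] (T : Module.End ℝ M) (u : M)
    (S₁ S₂ S₃ : Submodule ℝ M)
    (h₁ : ∀ v ∈ S₁, T v ∈ S₁) (h₂ : ∀ v ∈ S₂, T v ∈ S₂) (h₃ : ∀ v ∈ S₃, T v ∈ S₃)
    {v1 v2 : M} (hv1 : v1 ∈ S₁) (hv2 : v2 ∈ S₂) (hv3 : v1 + v2 ∈ S₃) {g1 g2 : ℝ[X]}
    (hg1 : v1 = (Polynomial.aeval T g1) u) (hg2 : v2 = (Polynomial.aeval T g2) u) :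
    v1 + v2 ∈ (S₁ ⊓ S₃) ⊔ (S₂ ⊓ S₃) := by
  by_cases h0 : EuclideanDomain.gcd g1 g2 = 0
  · rw [EuclideanDomain.gcd_eq_zero_iff] at h0
    rw [hg1, hg2, h0.1, h0.2, map_zero, LinearMap.zero_apply, add_zero]
    exact Submodule.zero_mem _
  · obtain ⟨b1, hb1⟩ := EuclideanDomain.gcd_dvd_left g1 g2
    obtain ⟨b2, hb2⟩ := EuclideanDomain.gcd_dvd_right g1 g2
    have hab := EuclideanDomain.gcd_eq_gcd_ab g1 g2
    obtain ⟨x, hx⟩ : ∃ x, x = EuclideanDomain.gcdA g1 g2 := ⟨_, rfl⟩
    obtain ⟨y, hy⟩ : ∃ y, y = EuclideanDomain.gcdB g1 g2 := ⟨_, rfl⟩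
    obtain ⟨d, hd⟩ : ∃ d, d = EuclideanDomain.gcd g1 g2 := ⟨_, rfl⟩
    rw [← hx, ← hy, ← hd] at hab
    rw [← hd] at hb1 hb2 h0
    have h1 : x * b1 + y * b2 = 1 := by
      apply mul_left_cancel₀ h0
      calc d * (x * b1 + y * b2) = (d * b1) * x + (d * b2) * y := by ring
        _ = g1 * x + g2 * y := by rw [← hb1, ← hb2]
        _ = d * 1 := by rw [← hab, mul_one]
    have hv12 : v1 + v2 = (Polynomial.aeval T (g1 + g2)) u := by
      rw [map_add, LinearMap.add_apply, ← hg1, ← hg2]
    have hsplit : v1 + v2 = (Polynomial.aeval T (x * b1)) (v1 + v2) +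
        (Polynomial.aeval T (y * b2)) (v1 + v2) := by
      rw [← LinearMap.add_apply, ← map_add, h1, map_one, Module.End.one_apply]
    have e1 : (Polynomial.aeval T (x * b1)) (v1 + v2) =
        (Polynomial.aeval T (x * (b1 + b2))) v1 := by
      rw [hv12, hg1, ← Module.End.mul_apply, ← Module.End.mul_apply, ← Polynomial.aeval_mul,
        ← Polynomial.aeval_mul]
      congr 2
      calc x * b1 * (g1 + g2) = x * b1 * (d * b1 + d * b2) := by rw [← hb1, ← hb2]
        _ = x * (b1 + b2) * (d * b1) := by ring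
        _ = x * (b1 + b2) * g1 := by rw [← hb1]
    have e2 : (Polynomial.aeval T (y * b2)) (v1 + v2) =
        (Polynomial.aeval T (y * (b1 + b2))) v2 := by
      rw [hv12, hg2, ← Module.End.mul_apply, ← Module.End.mul_apply, ← Polynomial.aeval_mul,
        ← Polynomial.aeval_mul]
      congr 2
      calc y * b2 * (g1 + g2) = y * b2 * (d * b1 + d * b2) := by rw [← hb1, ← hb2]
        _ = y * (b1 + b2) * (d * b2) := by ring
        _ = y * (b1 + b2) * g2 := by rw [← hb2]
    rw [hsplit]
    refine Submodule.add_mem_sup ⟨?_, ?_⟩ ⟨?_, ?_⟩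
    · rw [e1]
      exact loc_mem T S₁ h₁ _ v1 hv1
    · exact loc_mem T S₃ h₃ _ _ hv3
    · rw [e2]
      exact loc_mem T S₂ h₂ _ v2 hv2
    · exact loc_mem T S₃ h₃ _ _ hv3

private theorem span_aeval {M : Type*} [AddCommGroup M] [Module ℝ M] (T : Module.End ℝ M) (u v : M)
    (hv : v ∈ Submodule.span ℝ (Set.range fun n : ℕ => (T ^ n) u)) :
    ∃ g : ℝ[X], v = (Polynomial.aeval T g) u := by
  induction hv using Submodule.span_induction with
  | mem x hx =>
    obtain ⟨n, rfl⟩ := hx
    exact ⟨Polynomial.X ^ n, by rw [map_pow, Polynomial.aeval_X]⟩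
  | zero => exact ⟨0, by rw [map_zero, LinearMap.zero_apply]⟩
  | add x y _ _ hx hy =>
    obtain ⟨g, rfl⟩ := hx
    obtain ⟨h, rfl⟩ := hy
    exact ⟨g + h, by rw [map_add, LinearMap.add_apply]⟩
  | smul a x _ hx =>
    obtain ⟨g, rfl⟩ := hx
    exact ⟨a • g, by rw [map_smul, LinearMap.smul_apply]⟩

/-- the adjacency operator of `G`: `(A f) q` is the sum of `f` over the ends of the edges from `q` -/
noncomputable def adjOp (G : Graph) : Module.End ℝ (G.V → ℝ) where
  toFun := adjG G
  map_add' := by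
    intro f g
    funext q
    letI := Fintype.ofFinite G.E
    change (∑ e : G.E, if G.src e = q then (f + g) (G.tgt e) else 0) =
      (∑ e : G.E, if G.src e = q then f (G.tgt e) else 0) +
        ∑ e : G.E, if G.src e = q then g (G.tgt e) else 0
    rw [← Finset.sum_add_distrib]
    refine Finset.sum_congr rfl fun e _ => ?_
    split_ifs
    · rfl
    · rw [add_zero]
  map_smul' := by
    intro r f
    funext q
    letI := Fintype.ofFinite G.E
    change (∑ e : G.E, if G.src e = q then (r • f) (G.tgt e) else 0) =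
      r * ∑ e : G.E, if G.src e = q then f (G.tgt e) else 0
    rw [Finset.mul_sum]
    refine Finset.sum_congr rfl fun e _ => ?_
    split_ifs
    · rfl
    · rw [mul_zero]

/-- the multiplication by the indicator function of the fibre of `I` -/
noncomputable def fibOp {G H : Graph} (v : G.V → H.V) (I : H.V) : Module.End ℝ (G.V → ℝ) where
  toFun f q := if v q = I then f q else 0
  map_add' := by
    intro f g
    funext q
    change (if v q = I then f q + g q else 0) = (if v q = I then f q else 0) + if v q = I then g q else 0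
    split_ifs
    · rfl
    · rw [add_zero]
  map_smul' := by
    intro r f
    funext q
    change (if v q = I then r * f q else 0) = r * if v q = I then f q else 0
    split_ifs
    · rfl
    · rw [mul_zero]

/-- Some operator `T` in the algebra generated by the adjacency operator of `G` and the
multiplications by the indicator functions of the fibres has a vector `u` such that every function
that vanishes outside the fibre of `K` is a combination of the vectors `T ^ n u`. -/
def CyclicOver {G H : Graph} (v : G.V → H.V) (K : H.V) : Prop :=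
  ∃ T ∈ Algebra.adjoin ℝ (insert (adjOp G) (Set.range (fibOp v))), ∃ u : G.V → ℝ,
    ∀ f : G.V → ℝ, (∀ q, v q ≠ K → f q = 0) →
      f ∈ Submodule.span ℝ (Set.range fun n : ℕ => (T ^ n) u)

variable {G H : Graph}

lemma mem_of_adjoin (v : G.V → H.V) {S : Submodule ℝ (G.V → ℝ)} (hS : Fam (adjG G) v S)
    {T : Module.End ℝ (G.V → ℝ)}
    (hT : T ∈ Algebra.adjoin ℝ (insert (adjOp G) (Set.range (fibOp v)))) :
    ∀ f ∈ S, T f ∈ S := by
  induction hT using Algebra.adjoin_induction with
  | mem T hT =>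
    intro f hf
    rcases hT with rfl | ⟨I, rfl⟩
    · exact hS.adj f hf
    · exact hS.ind I f hf
  | algebraMap r =>
    intro f hf
    rw [Module.algebraMap_end_apply]
    exact S.smul_mem r hf
  | add T T' _ _ h h' =>
    intro f hf
    rw [LinearMap.add_apply]
    exact S.add_mem (h f hf) (h' f hf)
  | mul T T' _ _ h h' =>
    intro f hf
    rw [Module.End.mul_apply]
    exact h _ (h' f hf)

theorem distEnds_of_cyclicOver (v : G.V → H.V) (x : G.V) (h : CyclicOver v (v x)) :
    DistEnds v {q | v q = v x} := by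
  obtain ⟨T, hT, u, hu⟩ := h
  refine ⟨⟨x, rfl⟩, ?_, ?_, ?_⟩
  · intro y hy z hz
    rw [Set.mem_setOf_eq] at hy hz
    rw [hy, hz]
  · intro q y hy hq
    refine ⟨[], fun z _ t => ?_, q, ?_, rfl⟩
    · exact eq_comm
    · rw [Set.mem_setOf_eq] at hy ⊢
      rw [hq, hy]
  · intro S₁ S₂ S₃ h1 h2 h3 f hf hf3
    obtain ⟨f1, hf1, f2, hf2, rfl⟩ := Submodule.mem_sup.1 hf
    have hz : ∀ g : G.V → ℝ, ∀ q, v q ≠ v x → fibOp v (v x) g q = 0 := fun g q hq => if_neg hq
    obtain ⟨g1, hg1⟩ := span_aeval T u _ (hu (fibOp v (v x) f1) (hz f1))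
    obtain ⟨g2, hg2⟩ := span_aeval T u _ (hu (fibOp v (v x) f2) (hz f2))
    refine ⟨fibOp v (v x) f1 + fibOp v (v x) f2, ?_, ?_⟩
    · refine cyclic_two T u S₁ S₂ S₃ (mem_of_adjoin v h1 hT) (mem_of_adjoin v h2 hT)
        (mem_of_adjoin v h3 hT) (h1.ind _ f1 hf1) (h2.ind _ f2 hf2) ?_ hg1 hg2
      rw [← map_add]
      exact h3.ind _ _ hf3
    · intro q hq
      change (if v q = v x then f1 q else 0) + (if v q = v x then f2 q else 0) = f1 q + f2 q
      rw [Set.mem_setOf_eq] at hq
      rw [if_pos hq, if_pos hq]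

end Pool.Agent.H97.Dst
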