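import Pool.Agent.H97.Dst.GB
import Pool.Agent.H97.Dst.GC
import Pool.Agent.H97.Dst.GD

/-!
# Bunchy synchronizing factors and the distributive law
-/

set_option autoImplicit false

namespace Pool.Agent.H97.Dst

open Pool.Agent.H75.Bunchy Pool.Agent.H26.Bunchy Pool.Agent.H97.Bun Pool.Agent.H97.Star
open scoped Classical

/-- **Main theorem.** -/
theorem main11 (G B : Graph) (hG : G.StronglyConnected) (hB : IsBunchy B) (Φ : RightResolver G B)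
    (X : Set G.V) (h : DistEnds Φ.v X) :
    ∃ H : Graph, IsBunchy H ∧ ∃ Ψ : RightResolver G H, Ψ.Synchronizing := by
  obtain ⟨Q, Θ, Ψ, hΨ, _, hbij⟩ := relative_of B
    (fun G v => ∃ X : Set G.V, DistEnds v X)
    (fun G Q Φ Ψ w hv ⟨X, h⟩ => ⟨_, DistEnds.image Ψ w Φ.v hv h⟩)
    (fun G Φ hG ⟨X, h⟩ p₀ g g' hsg hsg' htg' hne => distEnds_step Φ hG h hsg hsg' htg' hne)
    _ G rfl hG Φ ⟨X, h⟩
  obtain ⟨M, hM, Λ, hΛ⟩ := hB
  refine ⟨Q, ⟨M, hM, RightResolver.comp Λ Θ, fun I => ?_⟩, Ψ, hΨ⟩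
  exact (hΛ (Θ.v I)).comp (hbij I)

end Pool.Agent.H97.Dst
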