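import Mathlib

/-!
# Nonderogatory operators have a cyclic vector

Part of `MP_644d19_co` (multiplicity-free theorem). Pure linear algebra over `ℂ`.

`exists_cyclic`: `T` is an operator on a finite dimensional complex vector space `N`, all eigenspaces of
dimension at most `1`. Then some `u` generates `N` as a module over `ℂ[X]`.

Proof. `Module.AEval' T` is a finite torsion module over `ℂ[X]`; by `Module.equiv_directSum_of_isTorsion` it is
isomorphic to `⨁ i : ι, ℂ[X] ⧸ ℂ[X] ∙ p i ^ e i`, `p i` irreducible, `ι` finite. (`Module.Finite` is an instance or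
follows from `FiniteDimensional`, torsion: every vector is killed by `minpoly ℂ T`, which is not `0`.)
`p i` has degree `1` (`IsAlgClosed.degree_eq_one_of_irreducible`), so it has a root `z i` and is associated to
`X - C (z i)`. For `i` with `e i ≠ 0` the element `w i` that corresponds to the class of `p i ^ (e i - 1)` in the
component `i` (`DirectSum.of` or `lof`) is not `0` and `p i • w i = 0`, so `T (w i) = z i • w i`. If `i ≠ j`, `e i ≠ 0 ≠ e j` and
`z i = z j`, then `w i`, `w j` are linearly independent (different components of the direct sum) and lie in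
the eigenspace of `z i`: contradiction to `finrank ≤ 1` (`finrank_le_one_iff` or `LinearIndependent.pair_iff` and
`LinearIndependent.fintype_card_le_finrank` in the eigenspace). So the `p i ^ e i` are pairwise coprime
(`IsCoprime`; `Irreducible.coprime_iff_not_dvd`, `IsCoprime.pow`; `e i = 0`: `isCoprime_one_left`). By the Chinese
remainder theorem (`Ideal.exists_forall_sub_mem_ideal`, or `Ideal.quotientInfToPiQuotient_surj`, with
`I i = Ideal.span {p i ^ e i}`) for every `x` in the direct sum there is `g` with `g • 1 = x`, `1` = the element with all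
components `1`. Let `u` correspond to `1`.
-/

set_option autoImplicit false

namespace Pool.Agent.H97.Dst

open scoped Polynomial

/-- the eigenspaces of the dual map have the same dimension (proof used here: a vector which is not killed by the
finitely many eigenvectors of the dual map is cyclic) -/
private theorem nonD_dual {N : Type*} [AddCommGroup N] [Module ℂ N] [FiniteDimensional ℂ N]
    (T : Module.End ℂ N) (z : ℂ) :
    Module.finrank ℂ (Module.End.eigenspace (M := Module.Dual ℂ N) T.dualMap z) =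
      Module.finrank ℂ (Module.End.eigenspace T z) := by
  have h1 : (T.dualMap - z • (1 : Module.End ℂ (Module.Dual ℂ N)) :
      Module.End ℂ (Module.Dual ℂ N)) =
      (T - z • (1 : Module.End ℂ N) : Module.End ℂ N).dualMap := by
    ext φ x
    simp
  rw [Module.End.eigenspace_def, Module.End.eigenspace_def, h1]
  have h2 := LinearMap.finrank_range_add_finrank_ker (T - z • (1 : Module.End ℂ N))
  have h3 := LinearMap.finrank_range_add_finrank_ker
    (T - z • (1 : Module.End ℂ N) : Module.End ℂ N).dualMap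
  rw [LinearMap.finrank_range_dualMap_eq_finrank_range, Subspace.dual_finrank_eq] at h3
  omega

theorem exists_cyclic {N : Type*} [AddCommGroup N] [Module ℂ N] [FiniteDimensional ℂ N]
    (T : Module.End ℂ N) (h : ∀ z : ℂ, Module.finrank ℂ (Module.End.eigenspace T z) ≤ 1) :
    ∃ u : N, ∀ v : N, ∃ g : ℂ[X], v = (Polynomial.aeval T g) u := by
  classical
  let D : Module.End ℂ (Module.Dual ℂ N) := T.dualMap
  have hD : ∀ z : ℂ, Module.finrank ℂ (D.eigenspace z) ≤ 1 := fun z => by
    rw [nonD_dual]
    exact h z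
  have hex : ∀ z : D.Eigenvalues, ∃ ψ, D.HasEigenvector z ψ := fun z =>
    Module.End.HasEigenvalue.exists_hasEigenvector z.2
  choose φ hφ using hex
  -- a vector which is not killed
  have hu : ∃ u : N, ∀ z : D.Eigenvalues, φ z u ≠ 0 := by
    by_contra hcon
    push Not at hcon
    have hcov : ⋃ z : D.Eigenvalues, ((LinearMap.ker (φ z) : Submodule ℂ N) : Set N) =
        Set.univ := by
      rw [Set.eq_univ_iff_forall]
      intro u
      obtain ⟨z, hz⟩ := hcon u
      exact Set.mem_iUnion.2 ⟨z, hz⟩
    obtain ⟨z, hz⟩ := Subspace.exists_eq_top_of_iUnion_eq_univ hcov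
    exact (hφ z).2 (LinearMap.ker_eq_top.1 hz)
  obtain ⟨u, hu⟩ := hu
  refine ⟨u, ?_⟩
  let Φ : ℂ[X] →ₗ[ℂ] N := (LinearMap.applyₗ u).comp (Polynomial.aeval T).toLinearMap
  have hΦ : ∀ g : ℂ[X], Φ g = Polynomial.aeval T g u := fun g => rfl
  suffices htop : LinearMap.range Φ = ⊤ by
    intro v
    obtain ⟨g, hg⟩ := LinearMap.range_eq_top.1 htop v
    exact ⟨g, by rw [← hg, hΦ]⟩
  by_contra hne
  have hA : (LinearMap.range Φ).dualAnnihilator ≠ ⊥ := by
    intro h0
    apply hne
    apply Subspace.dualAnnihilator_inj.1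
    rw [h0, Submodule.dualAnnihilator_top]
  have hinv : ∀ ψ ∈ (LinearMap.range Φ).dualAnnihilator,
      D ψ ∈ (LinearMap.range Φ).dualAnnihilator := by
    intro ψ hψ
    rw [Submodule.mem_dualAnnihilator] at hψ ⊢
    rintro _ ⟨g, rfl⟩
    show ψ (T (Φ g)) = 0
    apply hψ
    refine ⟨Polynomial.X * g, ?_⟩
    rw [hΦ, hΦ, map_mul, Polynomial.aeval_X]
    rfl
  haveI : Nontrivial ((LinearMap.range Φ).dualAnnihilator) :=
    Submodule.nontrivial_iff_ne_bot.2 hA
  obtain ⟨z, hz⟩ := Module.End.exists_eigenvalue (D.restrict hinv)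
  obtain ⟨⟨ψ, hψm⟩, hψ1, hψ2⟩ := hz.exists_hasEigenvector
  have hψ0 : ψ ≠ 0 := fun h0 => hψ2 (Subtype.ext h0)
  have hψe : D ψ = z • ψ := by
    have h4 := Module.End.mem_eigenspace_iff.1 hψ1
    exact congrArg Subtype.val h4
  have hev : D.HasEigenvalue z := Module.End.hasEigenvalue_of_hasEigenvector
    ⟨Module.End.mem_eigenspace_iff.2 hψe, hψ0⟩
  let w : D.Eigenvalues := ⟨z, hev⟩
  have hw1 : φ w ∈ D.eigenspace z := (hφ w).1
  have hw2 : φ w ≠ 0 := (hφ w).2
  have hψe' : ψ ∈ D.eigenspace z := Module.End.mem_eigenspace_iff.2 hψe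
  have h5 := finrank_le_one_iff.1 (hD z)
  obtain ⟨v, hv⟩ := h5
  obtain ⟨c, hc⟩ := hv ⟨φ w, hw1⟩
  obtain ⟨c', hc'⟩ := hv ⟨ψ, hψe'⟩
  have hc1 : c • (v : Module.Dual ℂ N) = φ w := congrArg Subtype.val hc
  have hc2 : c' • (v : Module.Dual ℂ N) = ψ := congrArg Subtype.val hc'
  have hc0 : c' ≠ 0 := by
    rintro rfl
    rw [zero_smul] at hc2
    exact hψ0 hc2.symm
  have h6 : ψ u = 0 := by
    rw [Submodule.mem_dualAnnihilator] at hψm
    apply hψm
    exact ⟨1, by rw [hΦ, map_one]; rfl⟩
  rw [← hc2, LinearMap.smul_apply, smul_eq_mul] at h6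
  have h7 : (v : Module.Dual ℂ N) u = 0 := (mul_eq_zero.1 h6).resolve_left hc0
  apply hu w
  rw [← hc1, LinearMap.smul_apply, h7, smul_zero]

end Pool.Agent.H97.Dst
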