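import Pool.Agent.H97.Dst.Loc
import Pool.Agent.H97.Dst.NonD
import Pool.Agent.H97.Dst.CLaw

/-!
# Graph level: weighted adjacency matrices without multiple eigenvalues

Part of `MP_644d19_co` (multiplicity-free theorem).

* `wMat v c`: the matrix with the entry `c (v q) (v t) * (number of edges from q to t)` at `(q, t)`.
* `NoMultiple M`: no complex eigenvalue of the real matrix `M` has geometric multiplicity `2` or more.
* `distEnds_of_noMultiple`: `exists_cyclic` for `T = Matrix.toLin' (M.map (algebraMap ℝ ℂ))`, `M = wMat v c`, then `real_law` with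
  `A = wadj v c` (`wadj` is in `GDefs.lean`; `wadj_mulVec`: `wadj v c f = M.mulVec f`: group the edges `e` with `src e = q` by their
  end `t`: `Finset.sum_fiberwise` or `Finset.sum_comm` with `if tgt e = t`; the number of edges from `q` to `t` is a sum of
  ones: `Nat.card_eq_fintype_card`, `Fintype.card_subtype`, `Finset.sum_boole`). `hre`, `him`: `Complex.re_sum`, `Complex.re_ofReal_mul`.
  The members `S` of the family are invariant under `wadj`: as in `GD.lean` (`wadj_eq` is private there, copy it).
  `DistEnds`: as in `distEnds_of_cyclic` (`GD.lean`) or `distEnds_of_cyclicOver` (`Loc.lean`); in `DLaw` take `g = f`.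
-/

set_option autoImplicit false

namespace Pool.Agent.H97.Dst

open Pool.Agent.H75.Bunchy Pool.Agent.H26.Bunchy Pool.Agent.H97.Bun Pool.Agent.H97.Star
open scoped Classical Polynomial

/-- the weighted adjacency matrix of `G`: the entry at `(q, t)` is the number of edges from `q` to `t`
times the weight `c (v q) (v t)` -/
noncomputable def wMat {G H : Graph} (v : G.V → H.V) (c : H.V → H.V → ℝ) : Matrix G.V G.V ℝ :=
  fun q t => c (v q) (v t) * Nat.card {e : G.E // G.src e = q ∧ G.tgt e = t}

/-- no complex eigenvalue of `M` has geometric multiplicity `2` or more -/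
def NoMultiple {n : Type} [Finite n] (M : Matrix n n ℝ) : Prop :=
  letI := Fintype.ofFinite n
  ∀ z : ℂ, Module.finrank ℂ (Module.End.eigenspace (Matrix.toLin' (M.map (algebraMap ℝ ℂ))) z) ≤ 1

variable {G H : Graph}

private lemma specg_wadj_eq (v : G.V → H.V) (c : H.V → H.V → ℝ) (f : G.V → ℝ) [Fintype H.V] :
    wadj v c f = ∑ I : H.V, ∑ J : H.V, c I J • (fun q => if v q = I then
      adjG G (fun p => if v p = J then f p else 0) q else 0) := by
  funext q
  letI := Fintype.ofFinite G.E
  have h1 : wadj v c f q = ∑ e : G.E, if G.src e = q then c (v q) (v (G.tgt e)) * f (G.tgt e) else 0 := rfl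
  have h2 : ∀ J, adjG G (fun p => if v p = J then f p else 0) q =
      ∑ e : G.E, if G.src e = q then (if v (G.tgt e) = J then f (G.tgt e) else 0) else 0 := fun J => rfl
  rw [h1, Finset.sum_apply, Finset.sum_eq_single (v q)]
  · rw [Finset.sum_apply]
    simp only [Pi.smul_apply, smul_eq_mul, if_true, h2, Finset.mul_sum]
    rw [Finset.sum_comm]
    refine Finset.sum_congr rfl fun e _ => ?_
    by_cases he : G.src e = q
    · simp only [if_pos he]
      rw [Finset.sum_eq_single (v (G.tgt e))]
      · rw [if_pos rfl]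
      · intro J _ hJ
        rw [if_neg (fun h => hJ h.symm), mul_zero]
      · intro h
        exact absurd (Finset.mem_univ _) h
    · simp only [if_neg he, mul_zero, Finset.sum_const_zero]
  · intro I _ hI
    rw [Finset.sum_apply]
    refine Finset.sum_eq_zero fun J _ => ?_
    simp only [Pi.smul_apply, smul_eq_mul]
    rw [if_neg (fun h => hI h.symm), mul_zero]
  · intro h
    exact absurd (Finset.mem_univ _) h

private lemma specg_mem (v : G.V → H.V) (c : H.V → H.V → ℝ) {S : Submodule ℝ (G.V → ℝ)}
    (hS : Fam (adjG G) v S) : ∀ f ∈ S, wadj v c f ∈ S := by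
  intro f hf
  letI := Fintype.ofFinite H.V
  rw [specg_wadj_eq]
  refine Submodule.sum_mem _ fun I _ => Submodule.sum_mem _ fun J _ => S.smul_mem _ ?_
  exact hS.ind I _ (hS.adj _ (hS.ind J f hf))

/-- the weighted adjacency operator is the multiplication by the matrix -/
private lemma specg_mulVec (v : G.V → H.V) (c : H.V → H.V → ℝ) (f : G.V → ℝ) (q : G.V) [Fintype G.V] :
    wadj v c f q = ∑ t, wMat v c q t * f t := by
  letI := Fintype.ofFinite G.E
  have h1 : wadj v c f q = ∑ e : G.E, if G.src e = q then c (v q) (v (G.tgt e)) * f (G.tgt e) else 0 := rfl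
  have h2 : ∀ t : G.V, wMat v c q t * f t =
      ∑ e : G.E, if G.src e = q ∧ G.tgt e = t then c (v q) (v t) * f t else 0 := by
    intro t
    have h3 : (Nat.card {e : G.E // G.src e = q ∧ G.tgt e = t} : ℝ) =
        ∑ e : G.E, if G.src e = q ∧ G.tgt e = t then (1 : ℝ) else 0 := by
      rw [Nat.card_eq_fintype_card, Fintype.card_subtype, Finset.sum_boole]
    change c (v q) (v t) * (Nat.card {e : G.E // G.src e = q ∧ G.tgt e = t} : ℝ) * f t = _
    rw [h3, Finset.mul_sum, Finset.sum_mul]
    refine Finset.sum_congr rfl fun e _ => ?_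
    split_ifs
    · rw [mul_one]
    · rw [mul_zero, zero_mul]
  rw [h1]
  simp only [h2]
  rw [Finset.sum_comm]
  refine Finset.sum_congr rfl fun e _ => ?_
  by_cases he : G.src e = q
  · rw [if_pos he, Finset.sum_eq_single (G.tgt e)]
    · rw [if_pos ⟨he, rfl⟩]
    · intro t _ ht
      rw [if_neg (fun h => ht h.2.symm)]
    · intro h
      exact absurd (Finset.mem_univ _) h
  · rw [if_neg he]
    exact (Finset.sum_eq_zero fun t _ => if_neg fun h => he h.1).symm

theorem distEnds_of_noMultiple (v : G.V → H.V) (c : H.V → H.V → ℝ) (h : NoMultiple (wMat v c))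
    (x : G.V) : DistEnds v {q | v q = v x} := by
  letI := Fintype.ofFinite G.V
  have h' : ∀ z : ℂ, Module.finrank ℂ (Module.End.eigenspace
      (Matrix.toLin' ((wMat v c).map (algebraMap ℝ ℂ))) z) ≤ 1 := h
  set T : Module.End ℂ (G.V → ℂ) := Matrix.toLin' ((wMat v c).map (algebraMap ℝ ℂ)) with hT
  have hTa : ∀ (F : G.V → ℂ) (q : G.V), T F q = ∑ t, ((wMat v c q t : ℝ) : ℂ) * F t := by
    intro F q
    rw [hT, Matrix.toLin'_apply]
    rfl
  obtain ⟨u, hu⟩ := exists_cyclic T h'
  have hre : ∀ F : G.V → ℂ, (fun q => (T F q).re) = wadj v c (fun q => (F q).re) := by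
    intro F
    funext q
    rw [hTa, specg_mulVec, Complex.re_sum]
    exact Finset.sum_congr rfl fun t _ => Complex.re_ofReal_mul _ _
  have him : ∀ F : G.V → ℂ, (fun q => (T F q).im) = wadj v c (fun q => (F q).im) := by
    intro F
    funext q
    rw [hTa, specg_mulVec, Complex.im_sum]
    exact Finset.sum_congr rfl fun t _ => Complex.im_ofReal_mul _ _
  refine ⟨⟨x, rfl⟩, ?_, ?_, ?_⟩
  · intro y hy z hz
    have hy' : v y = v x := hy
    have hz' : v z = v x := hz
    rw [hy', hz']
  · intro q y hy hq
    refine ⟨[], fun z _ t => ?_, q, ?_, rfl⟩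
    · exact eq_comm
    · have hy' : v y = v x := hy
      change v q = v x
      rw [hq, hy']
  · intro S₁ S₂ S₃ h1 h2 h3 f hf hf3
    exact ⟨f, real_law T (wadj v c) hre him u hu S₁ S₂ S₃ (specg_mem v c h1) (specg_mem v c h2)
      (specg_mem v c h3) ⟨hf, hf3⟩, fun _ _ => rfl⟩

end Pool.Agent.H97.Dst
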